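import Mathlib
import Pool.Agent.L0h45.LT.Cnd

/-!
# MP_f1937f_nt: traces of Frobenius of almost all elliptic curves, ordered by conductor

All elliptic curves `E` over `ℚ` (any reduction, any `j`) are ordered by the conductor `N`, their height being at most
`N ^ β`-like, `β < 10/7`; more generally by any invariant `I` which is at least a constant times the part prime to `6` of
the conductor and at most a constant times the height. There are about `Z ^ (5/6)` of them with `I ≤ Z`. For all but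
`Z ^ (5/6 - κ)` of them, the numbers of the primes `p ≤ x` with `a_p(E) = a` (all `a`, all `x` up to about `Z ^ κ`) are the
expected ones, up to the square root of the expected number times `x ^ δ`; and more generally for the traces and the angles
in given intervals at `s` consecutive primes. If `I` is at least a constant times the discriminant, `β < 5/2` is allowed.

From Mathlib: `Nat.nth Nat.Prime k`: the prime with the index `k`, starting with `k = 0`; `Set.OrdConnected`: intervals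
(also `∅`, single points and the whole space).

Proof. The pairs `(A, B)` with `|A| ≤ T ^ 2`, `|B| ≤ T ^ 3` are uniformly distributed in the residue classes modulo all
integers up to a power of `T`; high moments (`Pool.Agent.N368.TS`, used for thin families in the start file
`ThinParameterFamilies`) give the statement by height. Outside `Z ^ (5/6 - κ)` of the curves with `I ≤ Z` the height is at
most `Z ^ (1 + ε)`: the number of the curves (with additive reduction included) of conductor at most `Z` and height in a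
dyadic interval is bounded (`Pool.Agent.L0h45.AD`).
-/

set_option autoImplicit false

namespace Pool.Agent.Results.MP_f1937f_nt.AllCurvesByConductor

open Finset

/-- The number of the solutions `(x, y)` of `y² = x³ + A x + B` modulo `p`. -/
def points (p : ℕ) (A B : ℤ) : ℕ :=
  ((range p ×ˢ range p).filter
    (fun xy : ℕ × ℕ => (p : ℤ) ∣ (xy.2 : ℤ) ^ 2 - ((xy.1 : ℤ) ^ 3 + A * xy.1 + B))).card

/-- The number in `[0, 1]` with `cos (π angle) = (p - c) / (2 p ^ (1 / 2))`. -/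
noncomputable def angle (p c : ℕ) : ℝ := Real.arccos (((p : ℝ) - c) / (2 * Real.sqrt p)) / Real.pi

/-- The curve `E : y² = x³ + A x + B` has good reduction at `p ≠ 2`, the trace of Frobenius `a_p = p + 1 - #E(F_p)`, which is
`p - points p A B`, is in `J`, and the Frobenius angle `θ` in `[0, 1]`, `a_p = 2 p ^ (1 / 2) cos (π θ)`, is in `I`. -/
def Frobenius (J : Set ℤ) (I : Set ℝ) (p : ℕ) (A B : ℤ) : Prop :=
  ¬ (p : ℤ) ∣ 2 * (4 * A ^ 3 + 27 * B ^ 2) ∧ (p : ℤ) - points p A B ∈ J ∧ angle p (points p A B) ∈ I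

open Classical in
/-- The number of the `k < K` in `D` such that for all `i < s` the curve `y² = x³ + A x + B`, `q = (A, B)`, has the property,
with `J i` and `V i`, at the prime with the number `k + i` (the primes are numbered from `0`). For `s = 1`, `J = {a}` and
`V = ℝ` this is the number of the primes `p ≤ x` of good reduction with `a_p = a` if `K = π(x)` and `D = ℕ` (up to the
prime `2`). -/
noncomputable def frobeniusCount {s : ℕ} (q : ℤ × ℤ) (J : Fin s → Set ℤ) (V : Fin s → Set ℝ) (D : Set ℕ) (K : ℕ) : ℕ :=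
  ((range K).filter (fun k => k ∈ D ∧ ∀ i : Fin s, Frobenius (J i) (V i) (Nat.nth Nat.Prime (k + i)) q.1 q.2)).card

open Classical in
/-- The proportion of the pairs `(A, B)` of residues modulo `p` such that `y² = x³ + A x + B` has the property. -/
noncomputable def pairProportion (p : ℕ) (J : Set ℤ) (V : Set ℝ) : ℝ :=
  ((range p ×ˢ range p).filter (fun z : ℕ × ℕ => Frobenius J V p z.1 z.2)).card / (p : ℝ) ^ 2

open Classical in
/-- The expected number: the sum over the `k < K` in `D` of the products of the proportions at the `s` primes. -/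
noncomputable def model {s : ℕ} (J : Fin s → Set ℤ) (V : Fin s → Set ℝ) (D : Set ℕ) (K : ℕ) : ℝ :=
  ∑ k ∈ (range K).filter (fun k => k ∈ D), ∏ i : Fin s, pairProportion (Nat.nth Nat.Prime (k + i)) (J i) (V i)

/-- The discriminant, up to the factor `-16`. -/
def disc (A B : ℤ) : ℤ := 4 * A ^ 3 + 27 * B ^ 2

/-- The height of `y² = x³ + Ax + B`. -/
def height (A B : ℤ) : ℤ := max (4 * |A| ^ 3) (27 * B ^ 2)

/-- The pairs `(A, B)` with `4 A ^ 3 + 27 B ^ 2 ≠ 0` for which no prime `p` satisfies both `p ^ 4 ∣ A` and `p ^ 6 ∣ B`: one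
for each elliptic curve over `ℚ`. -/
def Family : Set (ℤ × ℤ) := {q | disc q.1 q.2 ≠ 0 ∧
  ∀ p : ℕ, p.Prime → ¬ ((p : ℤ) ^ 4 ∣ q.1 ∧ (p : ℤ) ^ 6 ∣ q.2)}

/-- The part prime to `6` of the conductor: the product over the primes `p ≥ 5` of bad reduction of `p` (multiplicative
reduction) or `p ^ 2` (additive reduction, that is `p ∣ A`). The conductor is this number times `2 ^ a * 3 ^ b` with
`a ≤ 8` and `b ≤ 5`. -/
def conductor6 (q : ℤ × ℤ) : ℕ :=
  ∏ p ∈ (disc q.1 q.2).natAbs.primeFactors.filter (fun p => 5 ≤ p), if (p : ℤ) ∣ q.1 then p ^ 2 else p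

/-- The curves with `I ≤ Z` and height at most `Z ^ β`. -/
def UpTo (I : ℤ × ℤ → ℝ) (β Z : ℝ) : Set (ℤ × ℤ) :=
  {q ∈ Family | I q ≤ Z ∧ (height q.1 q.2 : ℝ) ≤ Z ^ β}

/-- The law for the curve `q`, with `R = Z ^ κ` and `c = C (1 + log Z)`: for all `D ∈ W`, all `K ≤ R` and all intervals
`J i` of integers and `V i` of real numbers, the number `frobeniusCount` is the expected number `S = model` up to
`c max (1, S) ^ (1 / 2) K ^ δ`. -/
def Law (s : ℕ) (δ c R : ℝ) (W : Finset (Set ℕ)) (q : ℤ × ℤ) : Prop :=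
  ∀ D ∈ W, ∀ K : ℕ, (K : ℝ) ≤ R → ∀ (J : Fin s → Set ℤ) (V : Fin s → Set ℝ), (∀ i, (J i).OrdConnected) →
    (∀ i, (V i).OrdConnected) →
    |(frobeniusCount q J V D K : ℝ) - model J V D K| ≤ c * (√(max 1 (model J V D K)) * (K : ℝ) ^ δ)

/-- The conclusion: there are about `Z ^ (5/6)` curves, and all of them but `C Z ^ (5/6 - κ)` satisfy the law. -/
def AlmostAll (s : ℕ) (δ : ℝ) (I : ℤ × ℤ → ℝ) (β : ℝ) : Prop :=
  (∀ Z : ℝ, (UpTo I β Z).Finite) ∧
  (∃ c C : ℝ, 0 < c ∧ ∀ᶠ Z : ℝ in Filter.atTop,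
    c * Z ^ (5 / 6 : ℝ) ≤ ((UpTo I β Z).ncard : ℝ) ∧ ((UpTo I β Z).ncard : ℝ) ≤ C * Z ^ (5 / 6 : ℝ)) ∧
  ∃ κ C : ℝ, 0 < κ ∧ 0 < C ∧ ∀ Z : ℝ, 1 ≤ Z → ∀ W : Finset (Set ℕ), (W.card : ℝ) ≤ Z ^ κ →
    ({q ∈ UpTo I β Z | ¬ Law s δ (C * (1 + Real.log Z)) (Z ^ κ) W q}.ncard : ℝ) ≤ C * Z ^ (5 / 6 - κ : ℝ)

theorem points_congr (p : ℕ) {A A' B B' : ℤ} (hA : (p : ℤ) ∣ A - A') (hB : (p : ℤ) ∣ B - B') :
    points p A B = points p A' B' := by
  unfold points
  congr 1
  apply filter_congr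
  intro xy _
  have h : (p : ℤ) ∣ ((xy.2 : ℤ) ^ 2 - ((xy.1 : ℤ) ^ 3 + A * xy.1 + B)) -
      ((xy.2 : ℤ) ^ 2 - ((xy.1 : ℤ) ^ 3 + A' * xy.1 + B')) := by
    have e : ((xy.2 : ℤ) ^ 2 - ((xy.1 : ℤ) ^ 3 + A * xy.1 + B)) -
      ((xy.2 : ℤ) ^ 2 - ((xy.1 : ℤ) ^ 3 + A' * xy.1 + B')) = -((A - A') * xy.1 + (B - B')) := by ring
    rw [e]
    exact (dvd_add (hA.mul_right _) hB).neg_right
  exact (dvd_iff_dvd_of_dvd_sub h)

theorem disc_congr (p : ℕ) {A A' B B' : ℤ} (hA : (p : ℤ) ∣ A - A') (hB : (p : ℤ) ∣ B - B') :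
    (p : ℤ) ∣ 2 * (4 * A ^ 3 + 27 * B ^ 2) ↔ (p : ℤ) ∣ 2 * (4 * A' ^ 3 + 27 * B' ^ 2) := by
  have h : (p : ℤ) ∣ 2 * (4 * A ^ 3 + 27 * B ^ 2) - 2 * (4 * A' ^ 3 + 27 * B' ^ 2) := by
    have e : 2 * (4 * A ^ 3 + 27 * B ^ 2) - 2 * (4 * A' ^ 3 + 27 * B' ^ 2) =
      (A - A') * (8 * (A ^ 2 + A * A' + A' ^ 2)) + (B - B') * (54 * (B + B')) := by ring
    rw [e]
    exact dvd_add (hA.mul_right _) (hB.mul_right _)
  exact dvd_iff_dvd_of_dvd_sub h

/-- Intervals in a finite set. -/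
theorem interval_repr {α : Type} [LinearOrder α] {J : Set α} (hJ : J.OrdConnected) (T : Finset α) :
    (∃ a ∈ T, ∃ b ∈ T, ∀ t ∈ T, (t ∈ J ↔ t ∈ Set.Icc a b)) ∨ (∀ t ∈ T, t ∉ J) := by
  classical
  by_cases h : (T.filter (fun t => t ∈ J)).Nonempty
  · left
    have h1 := mem_filter.1 (min'_mem _ h)
    have h2 := mem_filter.1 (max'_mem _ h)
    refine ⟨_, h1.1, _, h2.1, fun t ht => ⟨fun htJ => ?_, fun ht2 => hJ.out h1.2 h2.2 ht2⟩⟩
    have h3 := mem_filter.2 (⟨ht, htJ⟩ : t ∈ T ∧ t ∈ J)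
    exact ⟨min'_le _ _ h3, le_max' _ _ h3⟩
  · right
    intro t ht htJ
    exact h ⟨t, mem_filter.2 ⟨ht, htJ⟩⟩

/-- The parameters of the properties. -/
abbrev Par : Type := {J : Set ℤ // J.OrdConnected} × {I : Set ℝ // I.OrdConnected}

/-- The property with its parameter. -/
def Pr (u : Par) (p : ℕ) (A B : ℤ) : Prop := Frobenius u.1.1 u.2.1 p A B

theorem pr_congr (u : Par) (p : ℕ) (A A' B B' : ℤ) (hA : (p : ℤ) ∣ A - A') (hB : (p : ℤ) ∣ B - B') :
    Pr u p A B ↔ Pr u p A' B' := by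
  unfold Pr Frobenius
  rw [points_congr p hA hB, disc_congr p hA hB]

/-- The traces at the primes up to `X`. -/
noncomputable def TX (X : ℕ) : Finset ℤ := Icc (-(X : ℤ) ^ 2) X

/-- The angles at the primes up to `X`. -/
noncomputable def AX (X : ℕ) : Finset ℝ := (range (X + 1) ×ˢ range (X ^ 2 + 1)).image (fun z => angle z.1 z.2)

open Classical in
/-- Representatives of the parameters for the primes up to `X`. -/
noncomputable def Rg (X : ℕ) : Finset Par :=
  ((TX X ×ˢ TX X) ×ˢ (AX X ×ˢ AX X)).image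
    (fun z => (⟨Set.Icc z.1.1 z.1.2, Set.ordConnected_Icc⟩, ⟨Set.Icc z.2.1 z.2.2, Set.ordConnected_Icc⟩))

theorem rg_card (X : ℕ) (hX : 1 ≤ X) : (Rg X).card ≤ 144 * X ^ 144 := by
  classical
  have h1 : (TX X).card ≤ 3 * X ^ 2 := by
    unfold TX
    rw [Int.card_Icc]
    have h2 : ((X : ℤ) + 1 - (-(X : ℤ) ^ 2)).toNat = X + 1 + X ^ 2 := by
      have : ((X : ℤ) + 1 - (-(X : ℤ) ^ 2)) = ((X + 1 + X ^ 2 : ℕ) : ℤ) := by
        push_cast
        ring
      rw [this, Int.toNat_natCast]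
    rw [h2]
    nlinarith
  have h2 : (AX X).card ≤ 4 * X ^ 3 := by
    unfold AX
    refine card_image_le.trans ?_
    rw [card_product, card_range, card_range]
    have h3 : X + 1 ≤ 2 * X := by omega
    have h4 : X ^ 2 + 1 ≤ 2 * X ^ 2 := by
      have : 1 ≤ X ^ 2 := Nat.one_le_pow _ _ hX
      omega
    calc (X + 1) * (X ^ 2 + 1) ≤ (2 * X) * (2 * X ^ 2) := Nat.mul_le_mul h3 h4
      _ = 4 * X ^ 3 := by ring
  unfold Rg
  refine card_image_le.trans ?_
  rw [card_product, card_product, card_product]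
  calc (TX X).card * (TX X).card * ((AX X).card * (AX X).card) ≤
        (3 * X ^ 2) * (3 * X ^ 2) * ((4 * X ^ 3) * (4 * X ^ 3)) :=
        Nat.mul_le_mul (Nat.mul_le_mul h1 h1) (Nat.mul_le_mul h2 h2)
    _ = 144 * X ^ 10 := by ring
    _ ≤ 144 * X ^ 144 := Nat.mul_le_mul_left _ (Nat.pow_le_pow_right hX (by norm_num))

theorem rg_spec (u : Par) (X : ℕ) :
    (∃ u' ∈ Rg X, ∀ p : ℕ, p.Prime → p ≤ X → ∀ A B, (Pr u p A B ↔ Pr u' p A B)) ∨
      (∀ p : ℕ, p.Prime → p ≤ X → ∀ A B, ¬ Pr u p A B) := by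
  classical
  have hpt : ∀ (p : ℕ) (A B : ℤ), p ≤ X → points p A B ≤ X ^ 2 := by
    intro p A B hp
    have h2 : points p A B ≤ p ^ 2 := by
      unfold points
      refine (card_filter_le _ _).trans ?_
      rw [card_product, card_range, pow_two]
    exact h2.trans (Nat.pow_le_pow_left hp 2)
  have h1 : ∀ (p : ℕ) (A B : ℤ), p ≤ X → (p : ℤ) - points p A B ∈ TX X := by
    intro p A B hp
    unfold TX
    rw [mem_Icc]
    have h2 : (points p A B : ℤ) ≤ (X : ℤ) ^ 2 := by exact_mod_cast hpt p A B hp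
    have h3 : (p : ℤ) ≤ X := by exact_mod_cast hp
    constructor <;> omega
  have h2 : ∀ (p : ℕ) (A B : ℤ), p ≤ X → angle p (points p A B) ∈ AX X := by
    intro p A B hp
    unfold AX
    rw [mem_image]
    refine ⟨(p, points p A B), ?_, rfl⟩
    rw [mem_product, mem_range, mem_range]
    exact ⟨Nat.lt_succ_of_le hp, Nat.lt_succ_of_le (hpt p A B hp)⟩
  rcases interval_repr u.1.2 (TX X) with ⟨a, ha, b, hb, hab⟩ | hn
  · rcases interval_repr u.2.2 (AX X) with ⟨a', ha', b', hb', hab'⟩ | hn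
    · left
      refine ⟨(⟨Set.Icc a b, Set.ordConnected_Icc⟩, ⟨Set.Icc a' b', Set.ordConnected_Icc⟩), ?_, ?_⟩
      · unfold Rg
        rw [mem_image]
        refine ⟨((a, b), (a', b')), ?_, rfl⟩
        rw [mem_product, mem_product, mem_product]
        exact ⟨⟨ha, hb⟩, ha', hb'⟩
      · intro p _ hp A B
        unfold Pr Frobenius
        simp only
        rw [hab _ (h1 p A B hp), hab' _ (h2 p A B hp)]
    · right
      intro p _ hp A B h
      exact hn _ (h2 p A B hp) h.2.2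
  · right
    intro p _ hp A B h
    exact hn _ (h1 p A B hp) h.2.1


theorem height_eq (q : ℤ × ℤ) : (height q.1 q.2 : ℝ) = Pool.Agent.L0h45.AD.ht q := by
  unfold height Pool.Agent.L0h45.AD.ht
  push_cast
  rfl

theorem UpTo_eq (I : ℤ × ℤ → ℝ) (β Z : ℝ) : UpTo I β Z = Pool.Agent.L0h45.AD.Upto I β Z := by
  ext q
  constructor
  · rintro ⟨h1, h2, h3⟩
    rw [height_eq] at h3
    exact ⟨h1, h2, h3⟩
  · rintro ⟨h1, h2, h3⟩
    rw [← height_eq] at h3
    exact ⟨h1, h2, h3⟩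

theorem law_of (s : ℕ) (δ c R : ℝ) (W : Finset (Set ℕ)) (q : ℤ × ℤ)
    (h : Pool.Agent.L0h45.LT.Law (s := s) Pr δ c R W q) : Law s δ c R W q := by
  intro D hD K hK J V hJ hV
  exact h D hD K hK (fun i => (⟨J i, hJ i⟩, ⟨V i, hV i⟩))

theorem conclude (s : ℕ) (hs : 1 ≤ s) (δ : ℝ) (h₀ : 0 < δ) {I : ℤ × ℤ → ℝ} {σ β C : ℝ} (hσ : 0 < σ)
    (hβ : 1 ≤ β) (hsp : Pool.Agent.L0h45.AD.Spt σ I β)
    (hI : ∀ q ∈ Family, I q ≤ C * (height q.1 q.2 : ℝ)) : AlmostAll s δ I β := by
  have hI' : Pool.Agent.L0h45.AD.Blw C I := by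
    intro q hq
    rw [← height_eq]
    exact hI q hq
  obtain ⟨c₂, hc₂, h₂⟩ := Pool.Agent.L0h45.AD.low hβ hI'
  obtain ⟨C₁, hC₁, hup⟩ := hsp.up
  obtain ⟨κ, C₃, hκ, hC₃, H⟩ := Pool.Agent.L0h45.LT.cond_law Pr hs δ h₀ pr_congr Rg 144 rg_card rg_spec hσ hsp
  refine ⟨?_, ⟨c₂, C₁, hc₂, ?_⟩, κ, C₃, hκ, hC₃, ?_⟩
  · intro Z
    rw [UpTo_eq]
    exact Pool.Agent.L0h45.AD.Upto_fin I β Z
  · filter_upwards [h₂, Filter.eventually_ge_atTop 1] with Z h3 h4
    rw [UpTo_eq]
    exact ⟨h3, hup Z h4⟩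
  · intro Z hZ W hW
    refine le_trans ?_ (H Z hZ W hW)
    have h1 : {q ∈ UpTo I β Z | ¬ Law s δ (C₃ * (1 + Real.log Z)) (Z ^ κ) W q} ⊆
        Pool.Agent.L0h45.AD.Upto I β Z ∩
          {q | ¬ Pool.Agent.L0h45.LT.Law (s := s) Pr δ (C₃ * (1 + Real.log Z)) (Z ^ κ) W q} := by
      intro q hq
      rw [← UpTo_eq]
      exact ⟨hq.1, fun h => hq.2 (law_of s δ _ _ W q h)⟩
    have h2 := Set.ncard_le_ncard h1 ((Pool.Agent.L0h45.AD.Upto_fin I β Z).inter_of_left _)
    exact_mod_cast h2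

theorem conductor6_le (q : ℤ × ℤ) (h : q ∈ Family) :
    (conductor6 q : ℝ) ≤ |(disc q.1 q.2 : ℝ)| := by
  have hD : disc q.1 q.2 ≠ 0 := h.1
  have hdvd : ((conductor6 q : ℕ) : ℤ) ∣ disc q.1 q.2 := by
    unfold conductor6
    push_cast
    apply Finset.prod_dvd_of_coprime
    · intro p hp p' hp' hne
      have h1 := Nat.prime_of_mem_primeFactors (Finset.mem_filter.mp hp).1
      have h2 := Nat.prime_of_mem_primeFactors (Finset.mem_filter.mp hp').1
      have h3 : IsCoprime (p : ℤ) (p' : ℤ) :=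
        Nat.isCoprime_iff_coprime.mpr ((Nat.coprime_primes h1 h2).mpr hne)
      simp only [Function.onFun]
      split_ifs
      · exact h3.pow
      · exact h3.pow_left
      · exact h3.pow_right
      · exact h3
    · intro p hp
      rw [Finset.mem_filter, Nat.mem_primeFactors] at hp
      obtain ⟨⟨h1, h2, -⟩, h5⟩ := hp
      have h3 : (p : ℤ) ∣ disc q.1 q.2 := Int.natCast_dvd.mpr h2
      split_ifs with h4
      · obtain ⟨k, hk⟩ := h4
        have h6 : (p : ℤ) ∣ 27 * q.2 ^ 2 := by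
          have h7 : 27 * q.2 ^ 2 = disc q.1 q.2 - p * (4 * q.1 ^ 2 * k) := by
            unfold disc
            nth_rewrite 1 [pow_succ, hk]
            rw [hk]
            ring
          rw [h7]
          exact dvd_sub h3 (dvd_mul_right _ _)
        have h8 : (p : ℤ) ∣ q.2 := by
          have hc : IsCoprime (p : ℤ) 27 := by
            have h9 : Nat.Coprime p 27 := by
              have : (27 : ℕ) = 3 ^ 3 := by norm_num
              rw [this]
              exact Nat.Coprime.pow_right 3 ((Nat.coprime_primes h1 Nat.prime_three).mpr (by omega))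
            exact_mod_cast Nat.isCoprime_iff_coprime.mpr h9
          exact (Nat.prime_iff_prime_int.mp h1).dvd_of_dvd_pow (hc.dvd_of_dvd_mul_left h6)
        obtain ⟨l, hl⟩ := h8
        refine ⟨4 * p * k ^ 3 + 27 * l ^ 2, ?_⟩
        unfold disc
        rw [hk, hl]
        ring
      · exact h3
  have h1 : conductor6 q ≤ (disc q.1 q.2).natAbs :=
    Nat.le_of_dvd (Int.natAbs_pos.mpr hD) (Int.natCast_dvd.mp hdvd)
  calc (conductor6 q : ℝ) ≤ (((disc q.1 q.2).natAbs : ℕ) : ℝ) := by exact_mod_cast h1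
    _ = |(disc q.1 q.2 : ℝ)| := by
      rw [← Int.cast_abs, Int.abs_eq_natAbs]
      simp

theorem disc_le (q : ℤ × ℤ) : |(disc q.1 q.2 : ℝ)| ≤ 2 * (height q.1 q.2 : ℝ) := by
  unfold disc height
  push_cast
  have h1 := abs_add_le (4 * (q.1 : ℝ) ^ 3) (27 * (q.2 : ℝ) ^ 2)
  rw [abs_mul, abs_mul, abs_pow, abs_pow, abs_of_pos (by norm_num : (0 : ℝ) < 4),
    abs_of_pos (by norm_num : (0 : ℝ) < 27), sq_abs] at h1
  have h2 := le_max_left (4 * |(q.1 : ℝ)| ^ 3) (27 * (q.2 : ℝ) ^ 2)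
  have h3 := le_max_right (4 * |(q.1 : ℝ)| ^ 3) (27 * (q.2 : ℝ) ^ 2)
  linarith

/-- **Theorem.** Let `s ≥ 1` and `δ > 0`. (1) Let `1 < β < 10/7` and let the invariant `I` be at least `c` times the part
prime to `6` of the conductor and at most `C` times the height, with constants `c, C > 0`; for example `I` may be the
conductor. Then `AlmostAll s δ I β`: there are about `Z ^ (5/6)` elliptic curves over `ℚ` with `I ≤ Z` and height at most
`Z ^ β`; there are `κ > 0` and `C` such that for all `Z ≥ 1` and every set `W` of at most `Z ^ κ` sets of indices all of these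
curves with at most `C Z ^ (5/6 - κ)` exceptions satisfy, for all `D ∈ W`, all `K ≤ Z ^ κ` and all intervals `J i`, `V i`: the
number of the `k < K` in `D` for which the traces and the angles of Frobenius at the primes with the numbers `k, ..., k + s - 1`
are in `J i` and `V i` is the expected number `S` up to `C max (1, S) ^ (1 / 2) K ^ δ (1 + log Z)`. (2) If `I` is at least `c`
times the discriminant, for example the minimal discriminant, this is true for `1 < β < 5/2`. (3) The part prime to `6` of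
the conductor is at most `|4 A ^ 3 + 27 B ^ 2|`, which is at most twice the height. -/
theorem result (s : ℕ) (hs : 1 ≤ s) (δ : ℝ) (h₀ : 0 < δ) :
    (∀ (I : ℤ × ℤ → ℝ) (c C β : ℝ), 0 < c → 0 < C → 1 < β → β < 10 / 7 →
      (∀ q ∈ Family, c * (conductor6 q : ℝ) ≤ I q ∧ I q ≤ C * (height q.1 q.2 : ℝ)) →
      AlmostAll s δ I β) ∧
    (∀ (I : ℤ × ℤ → ℝ) (c C β : ℝ), 0 < c → 0 < C → 1 < β → β < 5 / 2 →
      (∀ q ∈ Family, c * |(disc q.1 q.2 : ℝ)| ≤ I q ∧ I q ≤ C * (height q.1 q.2 : ℝ)) →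
      AlmostAll s δ I β) ∧
    (∀ q ∈ Family, (conductor6 q : ℝ) ≤ |(disc q.1 q.2 : ℝ)| ∧
      |(disc q.1 q.2 : ℝ)| ≤ 2 * (height q.1 q.2 : ℝ)) := by
  refine ⟨?_, ?_, ?_⟩
  · intro I c C β hc hC hβ1 hβ2 hI
    have hI' : Pool.Agent.L0h45.AD.Btw c C I := by
      intro q hq
      rw [← height_eq]
      exact hI q hq
    exact conclude s hs δ h₀ (by norm_num) hβ1.le
      (Pool.Agent.L0h45.AD.split (s := 1 / 12) (by norm_num) (by norm_num) (by linarith) hβ2 hc hI')
      (fun q hq => (hI q hq).2)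
  · intro I c C β hc hC hβ1 hβ2 hI
    exact conclude s hs δ h₀ (by norm_num) hβ1.le
      (Pool.Agent.L0h45.AD.split_disc (by linarith) hβ2 hc (fun q hq => (hI q hq).1))
      (fun q hq => (hI q hq).2)
  · intro q hq
    exact ⟨conductor6_le q hq, disc_le q⟩

end Pool.Agent.Results.MP_f1937f_nt.AllCurvesByConductor
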