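import Mathlib
import Pool.Agent.L0h41.CL.E
import Pool.Agent.L0h41.CL.SS

/-!
# MP_f1937f_nt: the central limit theorem for the Lang–Trotter counts of a random elliptic curve

A random elliptic curve `E : y² = x³ + A x + B` over `ℚ` is a random element of `Family K L`: the pairs `(A, B)` with
`|A| ≤ K`, `|B| ≤ L`, one for each curve (minimal model). For all real functions `w p` of the trace of Frobenius with
`|w p| ≤ 1` the sum `S(x)` of `w p (a_p(E))` over the primes `p ≤ x` of good reduction (different from `2`) has the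
expected value `mean w x` and the variance `variance w x`, which are defined by the pairs `(A, B)` modulo the primes. If
`x` is at most a small power of `K` and `L` and the variance is large, then `(S(x) - mean) / variance ^ (1/2)` is close in
distribution to a standard normal variable (`result`, first part). For the indicator functions of sets of integers this
is the central limit theorem for the number `P_{E, J}(x)` of the primes `p ≤ x` with `a_p(E)` in `J`, in particular for
`J = {a}`. For `a = 0` (supersingular primes) the variance is proved to tend to infinity (second and third part).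

From Mathlib: `ProbabilityTheory.cdf (ProbabilityTheory.gaussianReal 0 1)` is the distribution function of the standard
normal distribution (mean `0`, variance `1`).

Proof. Comparison of the moments of bounded order of the truncated sum with those of a sum of independent random variables
gives the characteristic function of the sum (`Pool.Agent.L0h41.CL`): the pairs are uniformly distributed in the residue
classes of all moduli up to a power of `K` and `L`; the condition of minimality is a condition modulo a fixed number up to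
a small proportion of the pairs. The variance for `a = 0`: for the primes `p ≡ 2` modulo `3` the curves `y² = x³ + B`
are supersingular.
-/

set_option autoImplicit false

namespace Pool.Agent.Results.MP_f1937f_nt.CentralLimit

open Finset
open Pool.Agent.N368.TS Pool.Agent.L0h41.CL

/-- The number of the solutions `(x, y)` of `y² = x³ + A x + B` modulo `p`. -/
def points (p : ℕ) (A B : ℤ) : ℕ :=
  ((range p ×ˢ range p).filter
    (fun xy : ℕ × ℕ => (p : ℤ) ∣ (xy.2 : ℤ) ^ 2 - ((xy.1 : ℤ) ^ 3 + A * xy.1 + B))).card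

/-- The trace of Frobenius `a_p = p + 1 - #E(F_p)` of `y² = x³ + A x + B` at a prime `p` of good reduction. -/
def trace (p : ℕ) (A B : ℤ) : ℤ := (p : ℤ) - points p A B

/-- `w p (a_p(E))` for the curve `E : y² = x³ + A x + B` if `p` does not divide `2 (4 A³ + 27 B²)`, otherwise `0`. -/
noncomputable def term (w : ℕ → ℤ → ℝ) (p : ℕ) (A B : ℤ) : ℝ :=
  if (p : ℤ) ∣ 2 * (4 * A ^ 3 + 27 * B ^ 2) then 0 else w p (trace p A B)

/-- The primes `p ≤ x`. -/
def primes (x : ℕ) : Finset ℕ := (range (x + 1)).filter Nat.Prime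

/-- The sum of `w p (a_p(E))` over the primes `p ≤ x` which do not divide `2 (4 A³ + 27 B²)`, for the curve
`E : y² = x³ + A x + B`, `E = (A, B)`. -/
noncomputable def weightedCount (w : ℕ → ℤ → ℝ) (x : ℕ) (E : ℤ × ℤ) : ℝ := ∑ p ∈ primes x, term w p E.1 E.2

/-- The average of `f` over the pairs of residues modulo `p`. -/
noncomputable def average (p : ℕ) (f : ℤ → ℤ → ℝ) : ℝ := (∑ a ∈ range p, ∑ b ∈ range p, f a b) / (p : ℝ) ^ 2

/-- The expected value of the sum: the sum over the primes `p ≤ x` of the averages. -/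
noncomputable def mean (w : ℕ → ℤ → ℝ) (x : ℕ) : ℝ := ∑ p ∈ primes x, average p (term w p)

/-- The variance of the sum: the sum over the primes `p ≤ x` of the variances. -/
noncomputable def variance (w : ℕ → ℤ → ℝ) (x : ℕ) : ℝ :=
  ∑ p ∈ primes x, (average p (fun a b => term w p a b ^ 2) - average p (term w p) ^ 2)

open Classical in
/-- The pairs `(A, B)` with `|A| ≤ K`, `|B| ≤ L`, `4 A³ + 27 B² ≠ 0` for which no prime `p` satisfies both `p ^ 4 ∣ A` and
`p ^ 6 ∣ B`: one for each elliptic curve over `ℚ` (for which this pair is in the box). -/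
noncomputable def Family (K L : ℕ) : Finset (ℤ × ℤ) :=
  (Icc (-(K : ℤ)) K ×ˢ Icc (-(L : ℤ)) L).filter (fun q => 4 * q.1 ^ 3 + 27 * q.2 ^ 2 ≠ 0 ∧
    ∀ p : ℕ, p.Prime → ¬ ((p : ℤ) ^ 4 ∣ q.1 ∧ (p : ℤ) ^ 6 ∣ q.2))

open Classical in
/-- The proportion of the curves `E` in `Family K L` for which the sum is at most
`mean + t * variance ^ (1/2)`. -/
noncomputable def proportion (K L : ℕ) (w : ℕ → ℤ → ℝ) (x : ℕ) (t : ℝ) : ℝ :=
  (((Family K L).filter (fun E => weightedCount w x E - mean w x ≤ t * √(variance w x))).card : ℝ) / (Family K L).card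

/-- The distribution function of the standard normal distribution. -/
noncomputable def normal (t : ℝ) : ℝ := ProbabilityTheory.cdf (ProbabilityTheory.gaussianReal 0 1) t

/-- The weights with which `weightedCount w x E` is the number of the primes `p ≤ x` with `p ∤ 2 (4 A³ + 27 B²)` and
`a_p(E) = 0` (supersingular primes). -/
noncomputable def supersingular (_p : ℕ) (a : ℤ) : ℝ := if a = 0 then 1 else 0

theorem points_congr (p : ℕ) {A A' B B' : ℤ} (hA : (p : ℤ) ∣ A - A') (hB : (p : ℤ) ∣ B - B') :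
    points p A B = points p A' B' := by
  unfold points
  congr 1
  apply filter_congr
  intro xy _
  have h : (p : ℤ) ∣ ((xy.2 : ℤ) ^ 2 - ((xy.1 : ℤ) ^ 3 + A * xy.1 + B)) -
      ((xy.2 : ℤ) ^ 2 - ((xy.1 : ℤ) ^ 3 + A' * xy.1 + B')) := by
    have e : ((xy.2 : ℤ) ^ 2 - ((xy.1 : ℤ) ^ 3 + A * xy.1 + B)) -
      ((xy.2 : ℤ) ^ 2 - ((xy.1 : ℤ) ^ 3 + A' * xy.1 + B')) = -((A - A') * xy.1 + (B - B')) := by ring
    rw [e]
    exact (dvd_add (hA.mul_right _) hB).neg_right
  exact (dvd_iff_dvd_of_dvd_sub h)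

theorem disc_congr (p : ℕ) {A A' B B' : ℤ} (hA : (p : ℤ) ∣ A - A') (hB : (p : ℤ) ∣ B - B') :
    (p : ℤ) ∣ 2 * (4 * A ^ 3 + 27 * B ^ 2) ↔ (p : ℤ) ∣ 2 * (4 * A' ^ 3 + 27 * B' ^ 2) := by
  have h : (p : ℤ) ∣ 2 * (4 * A ^ 3 + 27 * B ^ 2) - 2 * (4 * A' ^ 3 + 27 * B' ^ 2) := by
    have e : 2 * (4 * A ^ 3 + 27 * B ^ 2) - 2 * (4 * A' ^ 3 + 27 * B' ^ 2) =
      (A - A') * (8 * (A ^ 2 + A * A' + A' ^ 2)) + (B - B') * (54 * (B + B')) := by ring
    rw [e]
    exact dvd_add (hA.mul_right _) (hB.mul_right _)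
  exact dvd_iff_dvd_of_dvd_sub h

theorem term_congr (w : ℕ → ℤ → ℝ) (p : ℕ) {A A' B B' : ℤ} (hA : (p : ℤ) ∣ A - A') (hB : (p : ℤ) ∣ B - B') :
    term w p A B = term w p A' B' := by
  unfold term trace
  rw [points_congr p hA hB]
  simp only [disc_congr p hA hB]

/-- The function of the vector. -/
noncomputable def gg (w : ℕ → ℤ → ℝ) (p : ℕ) (c : Fin 2 → ℤ) : ℝ := term w p (c 0) (c 1)

theorem gg_per (w : ℕ → ℤ → ℝ) (p : ℕ) : PerV (gg w p) p := fun _ _ h => term_congr w p (h 0) (h 1)

theorem gg_le {w : ℕ → ℤ → ℝ} (hw : ∀ p a, |w p a| ≤ 1) (p : ℕ) (c : Fin 2 → ℤ) : |gg w p c| ≤ 1 := by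
  unfold gg term
  split_ifs
  · simp
  · exact hw _ _

theorem av_eq (p : ℕ) (F : (Fin 2 → ℤ) → ℝ) (f : ℤ → ℤ → ℝ) (h : ∀ c, F c = f (c 0) (c 1)) :
    av p F = average p f := by
  unfold av average
  rw [Fintype.card_fin]
  congr 1
  rw [← sum_product']
  refine sum_bij (fun t _ => (t 0, t 1)) ?_ ?_ ?_ ?_
  · intro t ht
    rw [mem_bx] at ht
    rw [mem_product, mem_range, mem_range]
    exact ⟨ht 0, ht 1⟩
  · intro t _ t' _ h
    rw [Prod.mk.injEq] at h
    funext i
    fin_cases i
    · exact h.1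
    · exact h.2
  · rintro ⟨x, y⟩ hxy
    rw [mem_product, mem_range, mem_range] at hxy
    refine ⟨![x, y], ?_, rfl⟩
    rw [mem_bx]
    intro i
    fin_cases i
    · exact hxy.1
    · exact hxy.2
  · intro t _
    exact h _

theorem family_eq (K L : ℕ) : Family K L = Fm K L := rfl

theorem mean_eq (w : ℕ → ℤ → ℝ) (x : ℕ) : mean w x = ∑ p ∈ prs x, av p (gg w p) :=
  sum_congr rfl fun p _ => (av_eq p _ _ fun _ => rfl).symm

theorem variance_eq (w : ℕ → ℤ → ℝ) (x : ℕ) : variance w x = ∑ p ∈ prs x, vr (gg w) p := by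
  refine sum_congr rfl fun p _ => ?_
  unfold vr
  rw [av_eq p (fun c => gg w p c ^ 2) (fun a b => term w p a b ^ 2) (fun _ => rfl),
    av_eq p (gg w p) (term w p) (fun _ => rfl)]

/-- The general central limit theorem. -/
theorem clt (δ : ℝ) (hδ : 0 < δ) : ∃ C : ℕ, ∃ V : ℝ, ∀ K L x : ℕ, x ^ C ≤ K → x ^ C ≤ L →
    ∀ w : ℕ → ℤ → ℝ, (∀ p a, |w p a| ≤ 1) → V ≤ variance w x →
      ∀ t : ℝ, |proportion K L w x t - normal t| ≤ δ := by
  classical
  obtain ⟨C, V, hV1, h⟩ := clt_box δ hδ
  refine ⟨C, V, ?_⟩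
  intro K L x hK hL w hw hV t
  rw [variance_eq] at hV
  have h1 := h K L x (gg w) hK hL (fun p _ => gg_per w p) (gg_le hw) hV t
  unfold proportion normal
  rw [family_eq]
  refine le_trans (le_of_eq ?_) h1
  congr 4
  congr 1
  ext E
  rw [mem_filter, mem_filter, mean_eq, variance_eq]
  rfl

theorem supersingular_le (p : ℕ) (a : ℤ) : |supersingular p a| ≤ 1 := by
  unfold supersingular
  split_ifs <;> simp

/-- The variance at the primes congruent to `2` modulo `3`. -/
theorem var_low (p : ℕ) (hp : p.Prime) (h5 : 5 ≤ p) (h3 : p % 3 = 2) :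
    1 / (4 * (p : ℝ)) ≤ average p (fun a b => term supersingular p a b ^ 2) - average p (term supersingular p) ^ 2 := by
  classical
  have hp5 : (5 : ℝ) ≤ p := by exact_mod_cast h5
  have hp0 : (0 : ℝ) < p := by linarith
  obtain ⟨N, hN⟩ : ∃ N : Finset (ℕ × ℕ), N = (range p ×ˢ range p).filter (fun z : ℕ × ℕ =>
      ¬ (p : ℤ) ∣ 2 * (4 * (z.1 : ℤ) ^ 3 + 27 * (z.2 : ℤ) ^ 2) ∧ trace p z.1 z.2 = 0) := ⟨_, rfl⟩
  have hterm : ∀ z : ℕ × ℕ, term supersingular p z.1 z.2 =
      if (¬ (p : ℤ) ∣ 2 * (4 * (z.1 : ℤ) ^ 3 + 27 * (z.2 : ℤ) ^ 2) ∧ trace p z.1 z.2 = 0) then 1 else 0 := by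
    intro z
    unfold term supersingular
    by_cases h1 : (p : ℤ) ∣ 2 * (4 * (z.1 : ℤ) ^ 3 + 27 * (z.2 : ℤ) ^ 2)
    · rw [if_pos h1, if_neg (by tauto)]
    · rw [if_neg h1]
      by_cases h2 : trace p z.1 z.2 = 0
      · rw [if_pos h2, if_pos ⟨h1, h2⟩]
      · rw [if_neg h2, if_neg (by tauto)]
  obtain ⟨μ, hμ⟩ : ∃ μ : ℝ, μ = (N.card : ℝ) / (p : ℝ) ^ 2 := ⟨_, rfl⟩
  have e1 : average p (term supersingular p) = μ := by
    unfold average
    rw [← sum_product', hμ, hN, sum_congr rfl (fun z _ => hterm z), ← sum_filter, sum_const, nsmul_eq_mul, mul_one]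
  have e2 : average p (fun a b => term supersingular p a b ^ 2) = μ := by
    unfold average
    have h1 : ∀ z ∈ range p ×ˢ range p, term supersingular p ((z : ℕ × ℕ).1) (z.2) ^ 2 =
        if (¬ (p : ℤ) ∣ 2 * (4 * (z.1 : ℤ) ^ 3 + 27 * (z.2 : ℤ) ^ 2) ∧ trace p z.1 z.2 = 0) then (1 : ℝ) else 0 := by
      intro z _
      rw [hterm z]
      split_ifs <;> simp
    rw [← sum_product' (f := fun a b => term supersingular p (a : ℕ) (b : ℕ) ^ 2), sum_congr rfl h1, ← sum_filter,
      sum_const, nsmul_eq_mul, mul_one, hμ, hN]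
  rw [e1, e2]
  -- the lower bound
  have hlow : (p : ℝ) - 1 ≤ N.card := by
    have h1 : (Icc 1 (p - 1)).image (fun b : ℕ => ((0 : ℕ), b)) ⊆ N := by
      intro z hz
      rw [mem_image] at hz
      obtain ⟨b, hb, rfl⟩ := hz
      rw [mem_Icc] at hb
      rw [hN, mem_filter, mem_product, mem_range, mem_range]
      refine ⟨⟨by omega, by omega⟩, ?_, ?_⟩
      · intro hd
        have hpI := Nat.prime_iff_prime_int.1 hp
        have e : 2 * (4 * (((0 : ℕ) : ℤ)) ^ 3 + 27 * (b : ℤ) ^ 2) = 2 * (3 ^ 3 * (b : ℤ) ^ 2) := by push_cast; ring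
        simp only at hd
        rw [e] at hd
        rcases hpI.dvd_or_dvd hd with h | h
        · have := Int.le_of_dvd (by norm_num) h
          omega
        · rcases hpI.dvd_or_dvd h with h | h
          · have := Int.le_of_dvd (by norm_num) (hpI.dvd_of_dvd_pow h)
            omega
          · have := Int.le_of_dvd (by omega) (hpI.dvd_of_dvd_pow h)
            omega
      · unfold trace points
        have := cube_points p hp h3 b
        simp only [Nat.cast_zero]
        rw [this]
        ring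
    have h2 := card_le_card h1
    rw [card_image_of_injective _ (fun a b h => by simpa using h), Nat.card_Icc] at h2
    have h3 : p ≤ N.card + 1 := by omega
    have h4 : (p : ℝ) ≤ N.card + 1 := by exact_mod_cast h3
    linarith
  have hup : (N.card : ℝ) ≤ (p : ℝ) ^ 2 - p := by
    have h1 := sing_pairs p hp h5
    obtain ⟨B, hB⟩ : ∃ B, B = (range p ×ˢ range p).filter
      (fun z : ℕ × ℕ => (p : ℤ) ∣ 2 * (4 * (z.1 : ℤ) ^ 3 + 27 * (z.2 : ℤ) ^ 2)) := ⟨_, rfl⟩
    rw [← hB] at h1
    have h2 : Disjoint N B := by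
      rw [disjoint_left]
      intro z h3 h4
      rw [hN, mem_filter] at h3
      rw [hB, mem_filter] at h4
      exact h3.2.1 h4.2
    have h3 : N ∪ B ⊆ range p ×ˢ range p := by
      rw [hN, hB]
      exact union_subset (filter_subset _ _) (filter_subset _ _)
    have h4 := card_le_card h3
    rw [card_union_of_disjoint h2, card_product, card_range] at h4
    have h5 : N.card + p ≤ p * p := by omega
    have h6 : (N.card : ℝ) + p ≤ p * p := by exact_mod_cast h5
    nlinarith
  have hm1 : 1 / (2 * (p : ℝ)) ≤ μ := by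
    rw [hμ, div_le_div_iff₀ (by positivity) (by positivity)]
    nlinarith
  have hm2 : 1 / (p : ℝ) ≤ 1 - μ := by
    have : μ ≤ 1 - 1 / p := by
      rw [hμ, div_le_iff₀ (by positivity)]
      calc (N.card : ℝ) ≤ (p : ℝ) ^ 2 - p := hup
        _ = (1 - 1 / p) * (p : ℝ) ^ 2 := by field_simp
    linarith
  have e4 : 1 / (4 * (p : ℝ)) = 1 / (2 * p) / 2 := by
    field_simp
    norm_num
  have e5 : 1 / (p : ℝ) = 2 * (1 / (2 * p)) := by
    field_simp
  have h7 : 0 < 1 / (2 * (p : ℝ)) := by positivity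
  rw [e4]
  rw [e5] at hm2
  rcases le_total μ (1 / 2) with h | h
  · nlinarith
  · nlinarith

/-- The variance of the number of the supersingular primes tends to infinity. -/
theorem variance_tendsto : Filter.Tendsto (fun x : ℕ => variance supersingular x) Filter.atTop Filter.atTop := by
  classical
  rw [Filter.tendsto_atTop_atTop]
  intro b
  obtain ⟨K, hK⟩ := recip_div (20 * b)
  refine ⟨3 * K + 2, ?_⟩
  intro x hx
  have h1 : ((Ioc 0 K).filter (fun m : ℕ => (3 * m + 2).Prime)).image (fun m => 3 * m + 2) ⊆ primes x := by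
    intro p hp
    rw [mem_image] at hp
    obtain ⟨m, hm, rfl⟩ := hp
    rw [mem_filter, mem_Ioc] at hm
    unfold primes
    rw [mem_filter, mem_range]
    exact ⟨by omega, hm.2⟩
  have h2 : ∑ p ∈ ((Ioc 0 K).filter (fun m : ℕ => (3 * m + 2).Prime)).image (fun m => 3 * m + 2),
      (average p (fun a b => term supersingular p a b ^ 2) - average p (term supersingular p) ^ 2) ≤
      variance supersingular x := by
    unfold variance
    refine sum_le_sum_of_subset_of_nonneg h1 fun p hp _ => ?_
    have hpp : p.Prime := by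
      unfold primes at hp
      exact (mem_filter.1 hp).2
    have h3 := vr_nonneg (gg supersingular) hpp
    unfold vr at h3
    rwa [av_eq p (fun c => gg supersingular p c ^ 2) (fun a b => term supersingular p a b ^ 2) (fun _ => rfl),
      av_eq p (gg supersingular p) (term supersingular p) (fun _ => rfl)] at h3
  refine le_trans ?_ h2
  rw [sum_image (fun a _ b _ h => by simpa using h)]
  have h3 : ∑ m ∈ (Ioc 0 K).filter (fun m : ℕ => (3 * m + 2).Prime), (1 / 20 : ℝ) * (1 / (m : ℝ)) ≤
      ∑ m ∈ (Ioc 0 K).filter (fun m : ℕ => (3 * m + 2).Prime),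
        (average (3 * m + 2) (fun a b => term supersingular (3 * m + 2) a b ^ 2) -
          average (3 * m + 2) (term supersingular (3 * m + 2)) ^ 2) := by
    refine sum_le_sum fun m hm => ?_
    rw [mem_filter, mem_Ioc] at hm
    refine le_trans ?_ (var_low (3 * m + 2) hm.2 (by omega) (by omega))
    have hm1 : (1 : ℝ) ≤ m := by exact_mod_cast hm.1.1
    have hm0 : (0 : ℝ) < m := by linarith
    push_cast
    rw [div_mul_div_comm, one_mul, div_le_div_iff₀ (by positivity) (by positivity)]
    linarith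
  rw [← mul_sum] at h3
  linarith

/-- **The central limit theorem for the Lang–Trotter counts.** For every `δ > 0` there are `C` and `V` such that for
`K, L ≥ x ^ C` and all functions `w p` of the trace, with values in `[-1, 1]`, with `V ≤ variance w x`, the distribution
function of the normalized sum of a random curve of the family is the one of the normal distribution up to `δ`. For the
number of the supersingular primes the variance tends to infinity, so the assertion is true for all large `x`. -/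
theorem result :
    (∀ δ : ℝ, 0 < δ → ∃ C : ℕ, ∃ V : ℝ, ∀ K L x : ℕ, x ^ C ≤ K → x ^ C ≤ L →
      ∀ w : ℕ → ℤ → ℝ, (∀ p a, |w p a| ≤ 1) → V ≤ variance w x →
        ∀ t : ℝ, |proportion K L w x t - normal t| ≤ δ) ∧
    (∀ δ : ℝ, 0 < δ → ∃ C x₀ : ℕ, ∀ K L x : ℕ, x₀ ≤ x → x ^ C ≤ K → x ^ C ≤ L →
        ∀ t : ℝ, |proportion K L supersingular x t - normal t| ≤ δ) ∧
    Filter.Tendsto (fun x : ℕ => variance supersingular x) Filter.atTop Filter.atTop := by
  refine ⟨clt, ?_, variance_tendsto⟩
  intro δ hδ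
  obtain ⟨C, V, h⟩ := clt δ hδ
  obtain ⟨x₀, hx₀⟩ := (Filter.tendsto_atTop_atTop.1 variance_tendsto) V
  exact ⟨C, x₀, fun K L x hx hK hL t => h K L x hK hL supersingular supersingular_le (hx₀ x hx) t⟩

end Pool.Agent.Results.MP_f1937f_nt.CentralLimit
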