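import Mathlib
import Pool.Agent.L0h23.PO.D
import Pool.Agent.L0h23.PO.E

/-!
# MP_f1937f_nt: the Poisson law for the primes with a given trace of Frobenius

A random elliptic curve `E : y² = x³ + A x + B` over `ℚ` is a random element of `Family K L`: the pairs `(A, B)` with
`|A| ≤ K`, `|B| ≤ L`, one for each curve (minimal model). A window is a finite set `P` of primes `p ≤ x` with sets `J p` of
integers (for example `J p = {a}`); `count P J E` is the number of the primes `p ∈ P` of good reduction with `a_p(E) ∈ J p`,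
and `expected P J` is its expected value, the sum of the shares of the pairs of residues modulo `p` with this property. The
numbers `x` are at most a small power of `K` and `L`.

(1) Joint law. For several windows (disjoint, or with disjoint sets of traces) with bounded expected values, the joint
distribution of the counts is the product of the Poisson distributions with the parameters `expected (P i) (J i)`, up to
`δ` plus a multiple of the sum of the squares of the shares. For `J p = {a}` the shares tend to zero (Deuring's class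
number formula: the share is about `H(4 p - a²) / (2 p)`), so the primes with `a_p(E) = a` form a Poisson process, and the
processes of different traces `a` are independent.

(2) Individual curves. For almost all curves `E`, the frequency with which `count (P i) (J i) E = k`, if `(P i, J i)` runs
through many windows, is the average of the Poisson probabilities of `k`, for all `k` simultaneously: the primes with
`a_p(E) = a` of almost every single curve have Poisson statistics.

Proof. The characteristic function of the counts is the mean of a product over the primes of `1 + z_p`, where `z_p` is zero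
except for the rare events. The product is expanded, and truncated at the order `m` (`Pool.Agent.L0h23.PO.prod_trunc`:
for numbers with `|1 + z_p| ≤ 1` the error is at most the absolute term of order `m + 1`). In the terms of bounded order
only bounded numbers of primes occur, for which the pairs are equidistributed (library of helper41, L0h41/CL).
-/

set_option autoImplicit false

namespace Pool.Agent.Results.MP_f1937f_nt.PoissonLaw

open Finset
open Pool.Agent.N368.TS Pool.Agent.L0h41.CL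

/-- The number of the solutions `(x, y)` of `y² = x³ + A x + B` modulo `p`. -/
def points (p : ℕ) (A B : ℤ) : ℕ :=
  ((range p ×ˢ range p).filter
    (fun xy : ℕ × ℕ => (p : ℤ) ∣ (xy.2 : ℤ) ^ 2 - ((xy.1 : ℤ) ^ 3 + A * xy.1 + B))).card

/-- The trace of Frobenius `a_p = p + 1 - #E(F_p)` of `y² = x³ + A x + B` at a prime `p` of good reduction. -/
def trace (p : ℕ) (A B : ℤ) : ℤ := (p : ℤ) - points p A B

/-- The prime `p` is odd and does not divide the discriminant `-16 (4 A³ + 27 B²)`. -/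
def Good (p : ℕ) (A B : ℤ) : Prop := ¬ (p : ℤ) ∣ 2 * (4 * A ^ 3 + 27 * B ^ 2)

open Classical in
/-- The number of the primes `p ∈ P` of good reduction with `a_p(E) ∈ J p`, for `E : y² = x³ + A x + B`, `E = (A, B)`. -/
noncomputable def count (P : Finset ℕ) (J : ℕ → Set ℤ) (E : ℤ × ℤ) : ℕ :=
  (P.filter fun p => Good p E.1 E.2 ∧ trace p E.1 E.2 ∈ J p).card

open Classical in
/-- The share of the pairs of residues modulo `p` with good reduction and with trace in `J`. -/
noncomputable def share (p : ℕ) (J : Set ℤ) : ℝ :=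
  (((range p ×ˢ range p).filter fun z : ℕ × ℕ => Good p z.1 z.2 ∧ trace p z.1 z.2 ∈ J).card : ℝ) / (p : ℝ) ^ 2

/-- The expected number. -/
noncomputable def expected (P : Finset ℕ) (J : ℕ → Set ℤ) : ℝ := ∑ p ∈ P, share p (J p)

/-- The sum of the squares of the shares. -/
noncomputable def squares (P : Finset ℕ) (J : ℕ → Set ℤ) : ℝ := ∑ p ∈ P, share p (J p) ^ 2

/-- The Poisson distribution with parameter `l`. -/
noncomputable def poisson (l : ℝ) (k : ℕ) : ℝ := Real.exp (-l) * l ^ k / k.factorial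

open Classical in
/-- The pairs `(A, B)` with `|A| ≤ K`, `|B| ≤ L`, `4 A³ + 27 B² ≠ 0` for which no prime `p` satisfies both `p ^ 4 ∣ A` and
`p ^ 6 ∣ B`: one for each elliptic curve over `ℚ` (for which this pair is in the box). -/
noncomputable def Family (K L : ℕ) : Finset (ℤ × ℤ) :=
  (Icc (-(K : ℤ)) K ×ˢ Icc (-(L : ℤ)) L).filter (fun q => 4 * q.1 ^ 3 + 27 * q.2 ^ 2 ≠ 0 ∧
    ∀ p : ℕ, p.Prime → ¬ ((p : ℤ) ^ 4 ∣ q.1 ∧ (p : ℤ) ^ 6 ∣ q.2))

open Classical in
/-- The proportion of the curves `E` in `Family K L` with the property `Q`. -/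
noncomputable def proportion (K L : ℕ) (Q : ℤ × ℤ → Prop) : ℝ := (((Family K L).filter Q).card : ℝ) / (Family K L).card

/-- `n` windows: `P i` consists of primes in `(x₀, x]`, and if a prime is in two windows, then the sets of traces are
disjoint. -/
structure Windows (n x₀ x : ℕ) (P : Fin n → Finset ℕ) (J : Fin n → ℕ → Set ℤ) : Prop where
  prime : ∀ i, ∀ p ∈ P i, p.Prime ∧ x₀ < p ∧ p ≤ x
  disjoint : ∀ i j, i ≠ j → ∀ p, p ∈ P i → p ∈ P j → Disjoint (J i p) (J j p)

/-! ### Auxiliary facts -/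

theorem points_congr (p : ℕ) {A A' B B' : ℤ} (hA : (p : ℤ) ∣ A - A') (hB : (p : ℤ) ∣ B - B') :
    points p A B = points p A' B' := by
  unfold points
  congr 1
  apply filter_congr
  intro xy _
  have h : (p : ℤ) ∣ ((xy.2 : ℤ) ^ 2 - ((xy.1 : ℤ) ^ 3 + A * xy.1 + B)) -
      ((xy.2 : ℤ) ^ 2 - ((xy.1 : ℤ) ^ 3 + A' * xy.1 + B')) := by
    have e : ((xy.2 : ℤ) ^ 2 - ((xy.1 : ℤ) ^ 3 + A * xy.1 + B)) -
      ((xy.2 : ℤ) ^ 2 - ((xy.1 : ℤ) ^ 3 + A' * xy.1 + B')) = -((A - A') * xy.1 + (B - B')) := by ring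
    rw [e]
    exact (dvd_add (hA.mul_right _) hB).neg_right
  exact (dvd_iff_dvd_of_dvd_sub h)

theorem disc_congr (p : ℕ) {A A' B B' : ℤ} (hA : (p : ℤ) ∣ A - A') (hB : (p : ℤ) ∣ B - B') :
    (p : ℤ) ∣ 2 * (4 * A ^ 3 + 27 * B ^ 2) ↔ (p : ℤ) ∣ 2 * (4 * A' ^ 3 + 27 * B' ^ 2) := by
  have h : (p : ℤ) ∣ 2 * (4 * A ^ 3 + 27 * B ^ 2) - 2 * (4 * A' ^ 3 + 27 * B' ^ 2) := by
    have e : 2 * (4 * A ^ 3 + 27 * B ^ 2) - 2 * (4 * A' ^ 3 + 27 * B' ^ 2) =
      (A - A') * (8 * (A ^ 2 + A * A' + A' ^ 2)) + (B - B') * (54 * (B + B')) := by ring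
    rw [e]
    exact dvd_add (hA.mul_right _) (hB.mul_right _)
  exact dvd_iff_dvd_of_dvd_sub h

/-- The event at the prime `p`. -/
def ev {s : ℕ} (P : Fin s → Finset ℕ) (J : Fin s → ℕ → Set ℤ) (j : Fin s) (p : ℕ) (c : Fin 2 → ℤ) : Prop :=
  p ∈ P j ∧ Good p (c 0) (c 1) ∧ trace p (c 0) (c 1) ∈ J j p

theorem ev_per {s : ℕ} (P : Fin s → Finset ℕ) (J : Fin s → ℕ → Set ℤ) (j : Fin s) (p : ℕ) : PerV (ev P J j p) p := by
  intro c d h
  unfold ev Good trace
  rw [points_congr p (h 0) (h 1)]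
  simp only [disc_congr p (h 0) (h 1)]

open Classical in
theorem av_ev {s : ℕ} (P : Fin s → Finset ℕ) (J : Fin s → ℕ → Set ℤ) (j : Fin s) (p : ℕ) :
    av p (Pool.Agent.L0h23.PO.ind (ev P J) j p) = if p ∈ P j then share p (J j p) else 0 := by
  have e0 : av p (Pool.Agent.L0h23.PO.ind (ev P J) j p) =
      (∑ z ∈ range p ×ˢ range p, if p ∈ P j ∧ Good p ((z : ℕ × ℕ).1 : ℤ) (z.2 : ℤ) ∧ trace p (z.1 : ℤ) (z.2 : ℤ) ∈ J j p
        then (1 : ℝ) else 0) / (p : ℝ) ^ 2 := by
    unfold av
    rw [Fintype.card_fin]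
    congr 1
    refine sum_bij (fun t _ => (t 0, t 1)) ?_ ?_ ?_ ?_
    · intro t ht
      rw [mem_bx] at ht
      rw [mem_product, mem_range, mem_range]
      exact ⟨ht 0, ht 1⟩
    · intro t _ t' _ h
      rw [Prod.mk.injEq] at h
      funext i
      fin_cases i
      · exact h.1
      · exact h.2
    · rintro ⟨x, y⟩ hxy
      rw [mem_product, mem_range, mem_range] at hxy
      refine ⟨![x, y], ?_, rfl⟩
      rw [mem_bx]
      intro i
      fin_cases i
      · exact hxy.1
      · exact hxy.2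
    · intro t _
      unfold Pool.Agent.L0h23.PO.ind ev
      by_cases h : p ∈ P j ∧ Good p (t 0 : ℤ) (t 1 : ℤ) ∧ trace p (t 0 : ℤ) (t 1 : ℤ) ∈ J j p
      · exact (if_pos h).trans (if_pos h).symm
      · exact (if_neg h).trans (if_neg h).symm
  rw [e0]
  by_cases h : p ∈ P j
  · rw [if_pos h]
    unfold share
    congr 1
    rw [← Pool.Agent.L0h23.PO.sum_ind]
    exact sum_congr rfl fun z _ => by simp only [h, true_and]
  · rw [if_neg h, sum_eq_zero fun z _ => by rw [if_neg (by tauto)], zero_div]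

theorem share_nonneg (p : ℕ) (J : Set ℤ) : 0 ≤ share p J := by
  unfold share
  positivity

theorem squares_nonneg (P : Finset ℕ) (J : ℕ → Set ℤ) : 0 ≤ squares P J := sum_nonneg fun _ _ => sq_nonneg _

theorem expected_nonneg (P : Finset ℕ) (J : ℕ → Set ℤ) : 0 ≤ expected P J := sum_nonneg fun _ _ => share_nonneg _ _

theorem prop_eq (K L : ℕ) {Q R : ℤ × ℤ → Prop} [DecidablePred R] (h : ∀ E, Q E ↔ R E) :
    proportion K L Q = (((Family K L).filter R).card : ℝ) / (Family K L).card := by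
  classical
  unfold proportion
  have e : (Family K L).filter Q = (Family K L).filter R := by
    ext E
    rw [mem_filter, mem_filter, h]
  rw [← e]

/-- The joint law. -/
theorem joint (s : ℕ) (Λ δ : ℝ) (hδ : 0 < δ) : ∃ C x₀ : ℕ, ∀ K L x : ℕ, x₀ ≤ x → x ^ C ≤ K → x ^ C ≤ L →
    ∀ (P : Fin s → Finset ℕ) (J : Fin s → ℕ → Set ℤ), Windows s x₀ x P J → (∀ i, expected (P i) (J i) ≤ Λ) →
      ∀ k : Fin s → ℕ, |proportion K L (fun E => ∀ i, count (P i) (J i) E = k i) -
        ∏ i, poisson (expected (P i) (J i)) (k i)| ≤ δ + 16 * s * ∑ i, squares (P i) (J i) := by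
  classical
  obtain ⟨C, x₀, h⟩ := Pool.Agent.L0h23.PO.law_box s Λ δ hδ
  refine ⟨C, x₀, ?_⟩
  intro K L x hx hK hL P J hW hΛ k
  obtain ⟨Q, hQ⟩ : ∃ Q : Finset ℕ, Q = (Ioc x₀ x).filter Nat.Prime := ⟨_, rfl⟩
  have hPQ : ∀ i, P i ⊆ Q := by
    intro i p hp
    obtain ⟨h1, h2, h3⟩ := hW.prime i p hp
    rw [hQ, mem_filter, mem_Ioc]
    exact ⟨⟨h2, h3⟩, h1⟩
  have hQm : ∀ p ∈ Q, p.Prime ∧ x₀ < p ∧ p ≤ x := by
    intro p hp
    rw [hQ, mem_filter, mem_Ioc] at hp
    exact ⟨hp.2, hp.1.1, hp.1.2⟩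
  have hexp : ∀ j, ∑ p ∈ Q, av p (Pool.Agent.L0h23.PO.ind (ev P J) j p) = expected (P j) (J j) := by
    intro j
    rw [sum_congr rfl fun p _ => av_ev P J j p, ← sum_filter, filter_mem_eq_inter, inter_eq_right.2 (hPQ j)]
    rfl
  have hmain := h K L x hx hK hL Q (ev P J) hQm (fun p _ j => ev_per P J j p) (by
    intro p _ c i j h1 h2
    by_contra hij
    exact Set.disjoint_left.1 (hW.disjoint i j hij p h1.1 h2.1) h1.2.2 h2.2.2) (fun j => by rw [hexp]; exact hΛ j) k
  have e1 : ((Fm K L).filter fun n => ∀ j, (Q.filter fun p => ev P J j p (vec n)).card = k j) =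
      (Family K L).filter fun E => ∀ i, count (P i) (J i) E = k i := by
    have e2 : Fm K L = Family K L := rfl
    rw [e2]
    refine filter_congr fun E _ => forall_congr' fun i => ?_
    have e3 : (Q.filter fun p => ev P J i p (vec E)) = (P i).filter fun p => Good p E.1 E.2 ∧ trace p E.1 E.2 ∈ J i p := by
      ext p
      rw [mem_filter, mem_filter]
      have e4 : ev P J i p (vec E) ↔ p ∈ P i ∧ Good p E.1 E.2 ∧ trace p E.1 E.2 ∈ J i p := Iff.rfl
      rw [e4]
      constructor
      · rintro ⟨-, h1, h2⟩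
        exact ⟨h1, h2⟩
      · rintro ⟨h1, h2⟩
        exact ⟨hPQ i h1, h1, h2⟩
    rw [e3]
    rfl
  have e5 : ∏ j, Pool.Agent.L0h23.PO.pois (∑ p ∈ Q, av p (Pool.Agent.L0h23.PO.ind (ev P J) j p)) (k j) =
      ∏ i, poisson (expected (P i) (J i)) (k i) := prod_congr rfl fun j _ => by rw [hexp]; rfl
  rw [e5] at hmain
  have e6 : proportion K L (fun E => ∀ i, count (P i) (J i) E = k i) =
      (((Fm K L).filter fun n => ∀ j, (Q.filter fun p => ev P J j p (vec n)).card = k j).card : ℝ) / (Fm K L).card := by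
    rw [e1]
    exact prop_eq K L fun _ => Iff.rfl
  rw [e6]
  refine hmain.trans ?_
  have e7 : ∑ p ∈ Q, (∑ j, av p (Pool.Agent.L0h23.PO.ind (ev P J) j p)) ^ 2 ≤ s * ∑ i, squares (P i) (J i) := by
    have h1 : ∀ p ∈ Q, (∑ j, av p (Pool.Agent.L0h23.PO.ind (ev P J) j p)) ^ 2 ≤
        s * ∑ j, (if p ∈ P j then share p (J j p) ^ 2 else 0) := by
      intro p _
      have h2 := sq_sum_le_card_mul_sum_sq (s := (univ : Finset (Fin s)))
        (f := fun j => av p (Pool.Agent.L0h23.PO.ind (ev P J) j p))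
      rw [card_univ, Fintype.card_fin] at h2
      refine h2.trans (le_of_eq ?_)
      congr 1
      refine sum_congr rfl fun j _ => ?_
      rw [av_ev]
      split_ifs
      · rfl
      · ring
    refine (sum_le_sum h1).trans (le_of_eq ?_)
    rw [← mul_sum, sum_comm]
    congr 1
    refine sum_congr rfl fun j _ => ?_
    rw [← sum_filter, filter_mem_eq_inter, inter_eq_right.2 (hPQ j)]
    rfl
  linarith

/-! ### Individual curves -/

theorem poisson_nonneg {l : ℝ} (hl : 0 ≤ l) (k : ℕ) : 0 ≤ poisson l k := by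
  unfold poisson
  positivity

/-- Finite sums of the Poisson probabilities. -/
theorem poisson_sum_le {l : ℝ} (hl : 0 ≤ l) (n : ℕ) : ∑ k ∈ range n, poisson l k ≤ 1 := by
  have h1 := Real.sum_le_exp_of_nonneg hl n
  have e : ∑ k ∈ range n, poisson l k = Real.exp (-l) * ∑ k ∈ range n, l ^ k / k.factorial := by
    rw [mul_sum]
    refine sum_congr rfl fun k _ => ?_
    unfold poisson
    ring
  rw [e]
  calc Real.exp (-l) * ∑ k ∈ range n, l ^ k / k.factorial ≤ Real.exp (-l) * Real.exp l :=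
        mul_le_mul_of_nonneg_left h1 (Real.exp_pos _).le
    _ = 1 := by rw [← Real.exp_add]; simp

/-- The tail of the Poisson distribution. -/
theorem poisson_tail {l : ℝ} (hl : 0 ≤ l) (n : ℕ) : 1 - l / (n + 1) ≤ ∑ k ∈ range (n + 1), poisson l k := by
  have hsum : HasSum (fun k : ℕ => poisson l k) 1 := by
    have h1 := NormedSpace.expSeries_div_hasSum_exp l
    rw [← Real.exp_eq_exp_ℝ] at h1
    have h2 := h1.mul_left (Real.exp (-l))
    rw [← Real.exp_add, neg_add_cancel, Real.exp_zero] at h2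
    have e : (fun k : ℕ => poisson l k) = fun i : ℕ => Real.exp (-l) * (l ^ i / i.factorial) := by
      funext k
      unfold poisson
      ring
    rw [e]
    exact h2
  have h1 := hsum.summable.sum_add_tsum_nat_add (n + 1)
  rw [hsum.tsum_eq] at h1
  have hs : Summable fun k : ℕ => poisson l (k + (n + 1)) := (summable_nat_add_iff (n + 1)).2 hsum.summable
  have hs' : Summable fun k : ℕ => poisson l (k + n) := (summable_nat_add_iff n).2 hsum.summable
  have h2 : ∑' k : ℕ, poisson l (k + (n + 1)) ≤ ∑' k : ℕ, l / (n + 1) * poisson l (k + n) := by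
    refine hs.tsum_le_tsum (fun k => ?_) (hs'.mul_left _)
    have hf : (0 : ℝ) < (k + n).factorial := by exact_mod_cast Nat.factorial_pos _
    have e : poisson l (k + (n + 1)) = l / (k + n + 1) * poisson l (k + n) := by
      unfold poisson
      rw [show k + (n + 1) = (k + n) + 1 by omega, Nat.factorial_succ, pow_succ]
      push_cast
      field_simp
    rw [e]
    refine mul_le_mul_of_nonneg_right ?_ (poisson_nonneg hl _)
    apply div_le_div_of_nonneg_left hl (by positivity)
    have : (0 : ℝ) ≤ k := Nat.cast_nonneg k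
    linarith
  rw [tsum_mul_left] at h2
  have h3 : ∑' k : ℕ, poisson l (k + n) ≤ 1 := by
    have h4 := hsum.summable.sum_add_tsum_nat_add n
    rw [hsum.tsum_eq] at h4
    have h5 : 0 ≤ ∑ k ∈ range n, poisson l k := sum_nonneg fun k _ => poisson_nonneg hl k
    linarith
  have h6 : l / (n + 1) * ∑' k : ℕ, poisson l (k + n) ≤ l / (n + 1) * 1 :=
    mul_le_mul_of_nonneg_left h3 (by positivity)
  linarith

/-- The law for one `k`. -/
theorem one_k (Λ κ : ℝ) (hκ : 0 < κ) : ∃ C x₀ : ℕ, ∀ K L x : ℕ, x₀ ≤ x → x ^ C ≤ K → x ^ C ≤ L →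
    ∀ (n : ℕ) (P : Fin n → Finset ℕ) (J : Fin n → ℕ → Set ℤ), 0 < n → Windows n x₀ x P J →
      (∀ i, expected (P i) (J i) ≤ Λ) → (∀ i, squares (P i) (J i) ≤ κ / 128) → ∀ δ : ℝ, 0 < δ → ∀ k : ℕ,
      proportion K L (fun E => δ < |((univ.filter fun i => count (P i) (J i) E = k).card : ℝ) / n -
        (∑ i, poisson (expected (P i) (J i)) k) / n|) ≤ (1 / n + 3 * κ) / δ ^ 2 := by
  obtain ⟨C1, x1, h1⟩ := joint 1 Λ (κ / 2) (by positivity)
  obtain ⟨C2, x2, h2⟩ := joint 2 Λ (κ / 2) (by positivity)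
  refine ⟨max (max C1 C2) 1, max (max x1 x2) 8, ?_⟩
  intro K L x hx hK hL n P J hn hW hΛ hsq δ hδ k
  have hx1 : x1 ≤ x := ((le_max_left _ _).trans (le_max_left _ _)).trans hx
  have hx2 : x2 ≤ x := ((le_max_right _ _).trans (le_max_left _ _)).trans hx
  have hx8 : 8 ≤ x := (le_max_right _ _).trans hx
  have hC1 : x ^ C1 ≤ x ^ (max (max C1 C2) 1) :=
    Nat.pow_le_pow_right (by omega) ((le_max_left _ _).trans (le_max_left _ _))
  have hC2 : x ^ C2 ≤ x ^ (max (max C1 C2) 1) :=
    Nat.pow_le_pow_right (by omega) ((le_max_right _ _).trans (le_max_left _ _))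
  have hC3 : x ^ 1 ≤ x ^ (max (max C1 C2) 1) := Nat.pow_le_pow_right (by omega) (le_max_right _ _)
  rw [pow_one] at hC3
  have hF : 0 < (Family K L).card := by
    have h3 := Fm_card K L (by omega) (by omega)
    have h4 := box_pos K L
    have h5 : (0 : ℝ) < (Fm K L).card := by linarith
    exact_mod_cast h5
  have hW' : ∀ i, ∀ p ∈ P i, p.Prime ∧ x1 < p ∧ p ≤ x := fun i p hp => by
    obtain ⟨a, b, c⟩ := hW.prime i p hp
    exact ⟨a, lt_of_le_of_lt ((le_max_left _ _).trans (le_max_left _ _)) b, c⟩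
  have hW'' : ∀ i, ∀ p ∈ P i, p.Prime ∧ x2 < p ∧ p ≤ x := fun i p hp => by
    obtain ⟨a, b, c⟩ := hW.prime i p hp
    exact ⟨a, lt_of_le_of_lt ((le_max_right _ _).trans (le_max_left _ _)) b, c⟩
  rw [prop_eq K L (R := fun E => δ < |((univ.filter fun i => count (P i) (J i) E = k).card : ℝ) / n -
    (∑ i, poisson (expected (P i) (J i)) k) / n|) fun _ => Iff.rfl]
  refine (Pool.Agent.L0h23.PO.freq (Family K L) hF n hn (fun i E => count (P i) (J i) E = k)
    (fun i => poisson (expected (P i) (J i)) k) (fun i => poisson_nonneg (expected_nonneg _ _) k) ?_ κ δ hδ ?_ ?_)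
  · intro i
    have h3 := poisson_sum_le (expected_nonneg (P i) (J i)) (k + 1)
    exact (single_le_sum (f := fun k => poisson (expected (P i) (J i)) k)
      (fun j _ => poisson_nonneg (expected_nonneg _ _) j) (mem_range.2 (Nat.lt_succ_self k))).trans h3
  · intro i
    have h3 := h1 K L x hx1 (hC1.trans hK) (hC1.trans hL) (fun _ => P i) (fun _ => J i)
      ⟨fun _ => hW' i, fun a b hab => absurd (Subsingleton.elim a b) hab⟩ (fun _ => hΛ i) (fun _ => k)
    rw [Fin.prod_univ_one, Fin.sum_univ_one] at h3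
    have e : proportion K L (fun E => ∀ _ : Fin 1, count (P i) (J i) E = k) =
        (((Family K L).filter fun E => count (P i) (J i) E = k).card : ℝ) / (Family K L).card := by
      exact prop_eq K L fun E => ⟨fun h => h 0, fun h _ => h⟩
    rw [e] at h3
    have h4 := hsq i
    push_cast at h3
    refine h3.trans ?_
    linarith
  · intro i j hij
    have h3 := h2 K L x hx2 (hC2.trans hK) (hC2.trans hL) ![P i, P j] ![J i, J j]
      ⟨fun a => by
        fin_cases a
        · exact hW'' i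
        · exact hW'' j, fun a b hab => by
        fin_cases a <;> fin_cases b
        · exact absurd rfl hab
        · exact hW.disjoint i j hij
        · exact hW.disjoint j i hij.symm
        · exact absurd rfl hab⟩ (fun a => by
        fin_cases a
        · exact hΛ i
        · exact hΛ j) (fun _ => k)
    rw [Fin.prod_univ_two, Fin.sum_univ_two] at h3
    simp only [Matrix.cons_val_zero, Matrix.cons_val_one] at h3
    have e : proportion K L (fun E => ∀ a : Fin 2, count ((![P i, P j] : Fin 2 → Finset ℕ) a)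
        ((![J i, J j] : Fin 2 → ℕ → Set ℤ) a) E = k) =
        (((Family K L).filter fun E => count (P i) (J i) E = k ∧ count (P j) (J j) E = k).card : ℝ) / (Family K L).card := by
      exact prop_eq K L fun E => ⟨fun h => ⟨h 0, h 1⟩, fun h a => by
        fin_cases a
        · exact h.1
        · exact h.2⟩
    rw [e] at h3
    have h4 := hsq i
    have h5 := hsq j
    push_cast at h3
    refine h3.trans ?_
    linarith

/-- From finitely many `k` to all `k`. -/
theorem all_k {n : ℕ} (hn : 0 < n) (N : Fin n → ℕ) (l : Fin n → ℝ) (Λ δ δ₁ : ℝ) (M : ℕ) (hl0 : ∀ i, 0 ≤ l i)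
    (hl : ∀ i, l i ≤ Λ) (hδ₁ : 0 < δ₁) (h1 : (M + 1) * δ₁ ≤ δ / 4) (h2 : Λ / (M + 1) ≤ δ / 4)
    (h : ∀ k < M + 1, |((univ.filter fun i => N i = k).card : ℝ) / n - (∑ i, poisson (l i) k) / n| ≤ δ₁) (k : ℕ) :
    |((univ.filter fun i => N i = k).card : ℝ) / n - (∑ i, poisson (l i) k) / n| ≤ δ := by
  have hn0 : (0 : ℝ) < n := by exact_mod_cast hn
  have hM : (0 : ℝ) ≤ M := Nat.cast_nonneg M
  have hδ₁' : δ₁ ≤ (M + 1) * δ₁ := by nlinarith
  rcases Nat.lt_or_ge k (M + 1) with hk | hk
  · linarith [h k hk]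
  obtain ⟨A, hA⟩ : ∃ A : ℕ → ℝ, A = fun k => ((univ.filter fun i => N i = k).card : ℝ) / n := ⟨_, rfl⟩
  obtain ⟨B, hB⟩ : ∃ B : ℕ → ℝ, B = fun k => (∑ i, poisson (l i) k) / n := ⟨_, rfl⟩
  have hA0 : ∀ j, 0 ≤ A j := fun j => by rw [hA]; positivity
  have hB0 : ∀ j, 0 ≤ B j := fun j => by
    rw [hB]
    exact div_nonneg (sum_nonneg fun i _ => poisson_nonneg (hl0 i) j) hn0.le
  have hAs : ∑ j ∈ range (k + 1), A j ≤ 1 := by
    rw [hA, ← sum_div, div_le_one hn0]
    have e1 : ∀ j, ((univ.filter fun i => N i = j).card : ℝ) = ∑ i, if N i = j then (1 : ℝ) else 0 := fun j =>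
      (Pool.Agent.L0h23.PO.sum_ind univ fun i => N i = j).symm
    rw [sum_congr rfl fun j _ => e1 j, sum_comm]
    have h3 : ∀ i ∈ (univ : Finset (Fin n)), ∑ j ∈ range (k + 1), (if N i = j then (1 : ℝ) else 0) ≤ 1 := by
      intro i _
      rw [sum_ite_eq]
      split_ifs <;> norm_num
    refine (sum_le_sum h3).trans (le_of_eq ?_)
    rw [sum_const, card_univ, Fintype.card_fin, nsmul_eq_mul, mul_one]
  have hBs : ∑ j ∈ range (k + 1), B j ≤ 1 := by
    rw [hB, ← sum_div, div_le_one hn0, sum_comm]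
    refine (sum_le_sum fun i _ => poisson_sum_le (hl0 i) (k + 1)).trans (le_of_eq ?_)
    rw [sum_const, card_univ, Fintype.card_fin, nsmul_eq_mul, mul_one]
  have hBt : 1 - Λ / (M + 1) ≤ ∑ j ∈ range (M + 1), B j := by
    rw [hB, ← sum_div, le_div_iff₀ hn0, sum_comm]
    have h3 : ∀ i ∈ (univ : Finset (Fin n)), 1 - Λ / (M + 1) ≤ ∑ j ∈ range (M + 1), poisson (l i) j := by
      intro i _
      refine le_trans ?_ (poisson_tail (hl0 i) M)
      have := div_le_div_of_nonneg_right (hl i) (by positivity : (0 : ℝ) ≤ M + 1)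
      linarith
    refine le_trans (le_of_eq ?_) (sum_le_sum h3)
    rw [sum_const, card_univ, Fintype.card_fin, nsmul_eq_mul, mul_comm]
  have hsub : range (M + 1) ⊆ range k := range_subset_range.2 hk
  have hA1 : A k + ∑ j ∈ range (M + 1), A j ≤ 1 := by
    rw [sum_range_succ] at hAs
    have := sum_le_sum_of_subset_of_nonneg hsub fun j _ _ => hA0 j
    linarith
  have hB1 : B k + ∑ j ∈ range (M + 1), B j ≤ 1 := by
    rw [sum_range_succ] at hBs
    have := sum_le_sum_of_subset_of_nonneg hsub fun j _ _ => hB0 j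
    linarith
  have hAB : ∑ j ∈ range (M + 1), B j - ∑ j ∈ range (M + 1), A j ≤ (M + 1) * δ₁ := by
    rw [← sum_sub_distrib]
    have h3 : ∀ j ∈ range (M + 1), B j - A j ≤ δ₁ := by
      intro j hj
      have h4 := (abs_le.1 (h j (mem_range.1 hj))).1
      rw [hA, hB]
      simp only
      linarith
    refine (sum_le_sum h3).trans (le_of_eq ?_)
    rw [sum_const, card_range, nsmul_eq_mul]
    push_cast
    ring
  have e : ((univ.filter fun i => N i = k).card : ℝ) / n - (∑ i, poisson (l i) k) / n = A k - B k := by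
    rw [hA, hB]
  rw [e, abs_le]
  have a1 := hA0 k
  have b1 := hB0 k
  constructor <;> linarith

theorem prop_union (K L M : ℕ) (Q : ℤ × ℤ → Prop) (R : ℕ → ℤ × ℤ → Prop) (h : ∀ E, Q E → ∃ k < M, R k E) :
    proportion K L Q ≤ ∑ k ∈ range M, proportion K L (R k) := by
  classical
  unfold proportion
  rw [← sum_div]
  refine div_le_div_of_nonneg_right ?_ (Nat.cast_nonneg _)
  have h1 : (Family K L).filter Q ⊆ (range M).biUnion fun k => (Family K L).filter (R k) := by
    intro E hE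
    obtain ⟨h2, h3⟩ := mem_filter.1 hE
    obtain ⟨k, hk, hR⟩ := h E h3
    exact mem_biUnion.2 ⟨k, mem_range.2 hk, mem_filter.2 ⟨h2, hR⟩⟩
  have h2 := (card_le_card h1).trans card_biUnion_le
  calc (((Family K L).filter Q).card : ℝ) ≤ ((∑ k ∈ range M, ((Family K L).filter (R k)).card : ℕ) : ℝ) := by
        exact_mod_cast h2
    _ = ∑ k ∈ range M, (((Family K L).filter (R k)).card : ℝ) := by push_cast; rfl

/-- Poisson statistics of individual curves. -/
theorem individual (Λ δ : ℝ) (hδ : 0 < δ) : ∃ C x₀ n₀ : ℕ, ∃ κ : ℝ, 0 < κ ∧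
    ∀ K L x : ℕ, x₀ ≤ x → x ^ C ≤ K → x ^ C ≤ L →
    ∀ (n : ℕ) (P : Fin n → Finset ℕ) (J : Fin n → ℕ → Set ℤ), n₀ ≤ n → Windows n x₀ x P J →
      (∀ i, expected (P i) (J i) ≤ Λ) → (∀ i, squares (P i) (J i) ≤ κ) →
      proportion K L (fun E => ∃ k : ℕ, δ < |((univ.filter fun i => count (P i) (J i) E = k).card : ℝ) / n -
        (∑ i, poisson (expected (P i) (J i)) k) / n|) ≤ δ := by
  obtain ⟨M, hM⟩ := exists_nat_ge (4 * Λ / δ)
  have hM0 : (0 : ℝ) ≤ M := Nat.cast_nonneg M
  have hΛM : Λ / (M + 1) ≤ δ / 4 := by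
    rw [div_le_iff₀ hδ] at hM
    rw [div_le_iff₀ (by positivity)]
    nlinarith
  obtain ⟨δ₁, hδ₁⟩ : ∃ δ₁ : ℝ, δ₁ = δ / (4 * (M + 1)) := ⟨_, rfl⟩
  have hδ₁0 : 0 < δ₁ := by rw [hδ₁]; positivity
  have hMδ : (M + 1) * δ₁ ≤ δ / 4 := by
    rw [hδ₁]
    apply le_of_eq
    field_simp
  obtain ⟨κ, hκ⟩ : ∃ κ : ℝ, κ = δ * δ₁ ^ 2 / (6 * (M + 1)) := ⟨_, rfl⟩
  have hκ0 : 0 < κ := by rw [hκ]; positivity
  obtain ⟨C, x₀, hC⟩ := one_k Λ κ hκ0
  obtain ⟨n₀, hn₀⟩ := exists_nat_ge (2 * (M + 1) / (δ * δ₁ ^ 2))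
  refine ⟨C, x₀, max n₀ 1, κ / 128, by positivity, ?_⟩
  intro K L x hx hK hL n P J hn hW hΛ hsq
  have hn1 : 0 < n := lt_of_lt_of_le one_pos ((le_max_right _ _).trans hn)
  have hn0 : (0 : ℝ) < n := by exact_mod_cast hn1
  have hnn : 2 * (M + 1) / (δ * δ₁ ^ 2) ≤ n := hn₀.trans (by exact_mod_cast (le_max_left _ _).trans hn)
  have h1 := prop_union K L (M + 1) (fun E => ∃ k : ℕ, δ < |((univ.filter fun i => count (P i) (J i) E = k).card : ℝ) / n -
        (∑ i, poisson (expected (P i) (J i)) k) / n|)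
      (fun k E => δ₁ < |((univ.filter fun i => count (P i) (J i) E = k).card : ℝ) / n -
        (∑ i, poisson (expected (P i) (J i)) k) / n|) (by
        intro E hE
        by_contra hcon
        push Not at hcon
        obtain ⟨k, hk⟩ := hE
        have h3 := all_k hn1 (fun i => count (P i) (J i) E) (fun i => expected (P i) (J i)) Λ δ δ₁ M
          (fun i => expected_nonneg _ _) hΛ hδ₁0 hMδ hΛM hcon k
        linarith)
  refine h1.trans ?_
  have h2 : ∀ k ∈ range (M + 1), proportion K L (fun E => δ₁ < |((univ.filter fun i => count (P i) (J i) E = k).card : ℝ) / n -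
        (∑ i, poisson (expected (P i) (J i)) k) / n|) ≤ δ / (M + 1) := by
    intro k _
    refine (hC K L x hx hK hL n P J hn1 hW hΛ hsq δ₁ hδ₁0 k).trans ?_
    have h4 : 1 / (n : ℝ) ≤ δ * δ₁ ^ 2 / (2 * (M + 1)) := by
      rw [div_le_div_iff₀ hn0 (by positivity)]
      rw [div_le_iff₀ (by positivity)] at hnn
      linarith
    have h5 : 3 * κ = δ * δ₁ ^ 2 / (2 * (M + 1)) := by
      rw [hκ]
      field_simp
      norm_num
    rw [h5, div_le_iff₀ (by positivity)]
    have h6 : δ * δ₁ ^ 2 / (2 * (M + 1)) + δ * δ₁ ^ 2 / (2 * (M + 1)) = δ / (M + 1) * δ₁ ^ 2 := by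
      field_simp
      norm_num
    linarith
  refine (sum_le_sum h2).trans (le_of_eq ?_)
  rw [sum_const, card_range, nsmul_eq_mul]
  push_cast
  field_simp

/-- **The Poisson law for the Lang–Trotter primes.** (1) For bounded expected values the joint distribution of the numbers of
primes `p` in `s` windows with `a_p(E) ∈ J p` is the product of Poisson distributions, up to `δ` plus `16 s` times the sum
of the squares of the shares. (2) For all curves but a proportion of `δ`, for all `k`, the frequency of the windows with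
exactly `k` such primes is the average of the Poisson probabilities of `k` up to `δ`. -/
theorem result :
    (∀ (s : ℕ) (Λ δ : ℝ), 0 < δ → ∃ C x₀ : ℕ, ∀ K L x : ℕ, x₀ ≤ x → x ^ C ≤ K → x ^ C ≤ L →
      ∀ (P : Fin s → Finset ℕ) (J : Fin s → ℕ → Set ℤ), Windows s x₀ x P J → (∀ i, expected (P i) (J i) ≤ Λ) →
        ∀ k : Fin s → ℕ, |proportion K L (fun E => ∀ i, count (P i) (J i) E = k i) -
          ∏ i, poisson (expected (P i) (J i)) (k i)| ≤ δ + 16 * s * ∑ i, squares (P i) (J i)) ∧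
    ∀ Λ δ : ℝ, 0 < δ → ∃ C x₀ n₀ : ℕ, ∃ κ : ℝ, 0 < κ ∧
      ∀ K L x : ℕ, x₀ ≤ x → x ^ C ≤ K → x ^ C ≤ L →
      ∀ (n : ℕ) (P : Fin n → Finset ℕ) (J : Fin n → ℕ → Set ℤ), n₀ ≤ n → Windows n x₀ x P J →
        (∀ i, expected (P i) (J i) ≤ Λ) → (∀ i, squares (P i) (J i) ≤ κ) →
        proportion K L (fun E => ∃ k : ℕ, δ < |((univ.filter fun i => count (P i) (J i) E = k).card : ℝ) / n -
          (∑ i, poisson (expected (P i) (J i)) k) / n|) ≤ δ :=
  ⟨fun s Λ δ hδ => joint s Λ δ hδ, fun Λ δ hδ => individual Λ δ hδ⟩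

end Pool.Agent.Results.MP_f1937f_nt.PoissonLaw
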