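import Mathlib
import Pool.Agent.L0h41.CL.E
import Pool.Agent.L0h41.CL.SS
import Pool.Agent.L0h41.NG.D

/-!
# MP_f1937f_nt: the Gaussian law for the Lang–Trotter counts in arbitrary polynomial families, several curves at once

`E_j(t) : y² = x³ + A_j(t) x + B_j(t)`, `j < r`, are `r` curves whose coefficients are polynomials `A_j`, `B_j` with
integral coefficients in `k` parameters `t = (t_1, …, t_k)`; there is no condition on the polynomials. Let `w_p` be a
function of `r` integers with `|w_p| ≤ 1`, for each prime `p`. For integral `t` we consider the sum `S(t)` of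
`w_p (a_p(E_1(t)), …, a_p(E_r(t)))` over the primes `p ≤ x` which are different from `2` and at which all `E_j(t)` have good
reduction (for the given equation): for instance the number of the primes `p ≤ x` with `a_p(E(t)) = a`, or with
`a_p(E(t)) = a_p(E'(t))`, or of the primes which are supersingular for all `E_j(t)`. Its expected value `mean` and its
variance `variance` are defined by the parameters modulo the primes.

First part of `result`: if `x` is at most a small power of the sides of the box of the parameters and the variance is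
larger than a constant then `(S(t) - mean) / variance ^ (1/2)` is close in distribution to a standard normal variable; the
small power and the constant depend only on `k` and on the precision: they are uniform in the polynomials (so the box
may be anywhere), their number `r` and the weights `w_p`.

Second and third part: the hypothesis on the variance is verified in thin families. Let `k = 1`, let `E_0(t)` be
`y² = x³ + t x + b`, `b ≠ 0`, and let the other `E_j` be arbitrary with `A_j(0) = 0 ≠ B_j(0)`. If `w_p(0, …, 0) = 1` for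
`p ≡ 2` modulo `3` then the variance tends to infinity (uniformly in `w`), and so the normal law is true for all large `x`.
This applies to the common supersingular primes of all `E_j(t)`, to the primes with `a_p(E_0(t)) = a_p(E_1(t))`, and
for `r = 1` to the supersingular primes of `y² = x³ + t x + b` and to Sato–Tate intervals around zero.

From Mathlib: `ProbabilityTheory.cdf (ProbabilityTheory.gaussianReal 0 1)` is the distribution function of the standard
normal distribution (mean `0`, variance `1`).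
-/

set_option autoImplicit false

namespace Pool.Agent.Results.MP_f1937f_nt.PolynomialFamilies

open Finset MvPolynomial
open Pool.Agent.N368.TS Pool.Agent.L0h41.CL

/-- The number of the solutions `(x, y)` of `y² = x³ + A x + B` modulo `p`. -/
def points (p : ℕ) (A B : ℤ) : ℕ :=
  ((range p ×ˢ range p).filter
    (fun xy : ℕ × ℕ => (p : ℤ) ∣ (xy.2 : ℤ) ^ 2 - ((xy.1 : ℤ) ^ 3 + A * xy.1 + B))).card

/-- The trace of Frobenius `a_p = p + 1 - #E(F_p)` of `y² = x³ + A x + B` at a prime `p` of good reduction. -/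
def trace (p : ℕ) (A B : ℤ) : ℤ := (p : ℤ) - points p A B

/-- `r` families `y² = x³ + A_j(t) x + B_j(t)` of curves with `k` parameters `t`. -/
structure Curves (k r : ℕ) where
  A : Fin r → MvPolynomial (Fin k) ℤ
  B : Fin r → MvPolynomial (Fin k) ℤ

variable {k r : ℕ}

/-- The coefficient `A_j(t)`. -/
noncomputable def Curves.a (E : Curves k r) (t : Fin k → ℤ) (j : Fin r) : ℤ := eval t (E.A j)

/-- The coefficient `B_j(t)`. -/
noncomputable def Curves.b (E : Curves k r) (t : Fin k → ℤ) (j : Fin r) : ℤ := eval t (E.B j)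

open Classical in
/-- `w p (a_p(E_1(t)), …, a_p(E_r(t)))` if `p` divides none of the `2 (4 A_j(t)³ + 27 B_j(t)²)`, otherwise `0`. -/
noncomputable def term (E : Curves k r) (w : ℕ → (Fin r → ℤ) → ℝ) (p : ℕ) (t : Fin k → ℤ) : ℝ :=
  if ∃ j, (p : ℤ) ∣ 2 * (4 * E.a t j ^ 3 + 27 * E.b t j ^ 2) then 0 else w p (fun j => trace p (E.a t j) (E.b t j))

/-- The primes `p ≤ x`. -/
def primes (x : ℕ) : Finset ℕ := (range (x + 1)).filter Nat.Prime

/-- The sum of `w p (a_p(E_1(t)), …, a_p(E_r(t)))` over the primes `p ≤ x` which divide none of the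
`2 (4 A_j(t)³ + 27 B_j(t)²)`. -/
noncomputable def weightedCount (E : Curves k r) (w : ℕ → (Fin r → ℤ) → ℝ) (x : ℕ) (t : Fin k → ℤ) : ℝ :=
  ∑ p ∈ primes x, term E w p t

/-- The average of `f` over the parameters modulo `p`. -/
noncomputable def average (p : ℕ) (f : (Fin k → ℤ) → ℝ) : ℝ :=
  (∑ t ∈ Fintype.piFinset (fun _ : Fin k => range p), f (fun i => (t i : ℤ))) / (p : ℝ) ^ k

/-- The expected value of the sum: the sum over the primes `p ≤ x` of the averages. -/
noncomputable def mean (E : Curves k r) (w : ℕ → (Fin r → ℤ) → ℝ) (x : ℕ) : ℝ :=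
  ∑ p ∈ primes x, average p (term E w p)

/-- The variance of the sum: the sum over the primes `p ≤ x` of the variances. -/
noncomputable def variance (E : Curves k r) (w : ℕ → (Fin r → ℤ) → ℝ) (x : ℕ) : ℝ :=
  ∑ p ∈ primes x, (average p (fun t => term E w p t ^ 2) - average p (term E w p) ^ 2)

/-- The parameters `t` with `|t_i| ≤ H_i` for all `i`. -/
noncomputable def Box (H : Fin k → ℕ) : Finset (Fin k → ℤ) := Fintype.piFinset (fun i => Icc (-(H i : ℤ)) (H i))

open Classical in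
/-- The proportion of the `t` in `Box H` for which the sum is at most `mean + u * variance ^ (1/2)`. -/
noncomputable def proportion (E : Curves k r) (w : ℕ → (Fin r → ℤ) → ℝ) (x : ℕ) (H : Fin k → ℕ) (u : ℝ) : ℝ :=
  (((Box H).filter (fun t => weightedCount E w x t - mean E w x ≤ u * √(variance E w x))).card : ℝ) / (Box H).card

/-- The distribution function of the standard normal distribution. -/
noncomputable def normal (u : ℝ) : ℝ := ProbabilityTheory.cdf (ProbabilityTheory.gaussianReal 0 1) u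

/-- The families of the second part: one parameter `t`, `E_0(t)` is `y² = x³ + t x + b` with `b ≠ 0`, and for all `j` the
curve `E_j(0)` is `y² = x³ + B_j(0)` with `B_j(0) ≠ 0`. -/
def Special (E : Curves 1 (r + 1)) : Prop :=
  (∃ b : ℤ, b ≠ 0 ∧ E.A 0 = X 0 ∧ E.B 0 = C b) ∧ ∀ j, E.a 0 j = 0 ∧ E.b 0 j ≠ 0

theorem points_congr (p : ℕ) {A A' B B' : ℤ} (hA : (p : ℤ) ∣ A - A') (hB : (p : ℤ) ∣ B - B') :
    points p A B = points p A' B' := by
  unfold points
  congr 1
  apply filter_congr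
  intro xy _
  have h : (p : ℤ) ∣ ((xy.2 : ℤ) ^ 2 - ((xy.1 : ℤ) ^ 3 + A * xy.1 + B)) -
      ((xy.2 : ℤ) ^ 2 - ((xy.1 : ℤ) ^ 3 + A' * xy.1 + B')) := by
    have e : ((xy.2 : ℤ) ^ 2 - ((xy.1 : ℤ) ^ 3 + A * xy.1 + B)) -
      ((xy.2 : ℤ) ^ 2 - ((xy.1 : ℤ) ^ 3 + A' * xy.1 + B')) = -((A - A') * xy.1 + (B - B')) := by ring
    rw [e]
    exact (dvd_add (hA.mul_right _) hB).neg_right
  exact (dvd_iff_dvd_of_dvd_sub h)

theorem disc_congr (p : ℕ) {A A' B B' : ℤ} (hA : (p : ℤ) ∣ A - A') (hB : (p : ℤ) ∣ B - B') :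
    (p : ℤ) ∣ 2 * (4 * A ^ 3 + 27 * B ^ 2) ↔ (p : ℤ) ∣ 2 * (4 * A' ^ 3 + 27 * B' ^ 2) := by
  have h : (p : ℤ) ∣ 2 * (4 * A ^ 3 + 27 * B ^ 2) - 2 * (4 * A' ^ 3 + 27 * B' ^ 2) := by
    have e : 2 * (4 * A ^ 3 + 27 * B ^ 2) - 2 * (4 * A' ^ 3 + 27 * B' ^ 2) =
      (A - A') * (8 * (A ^ 2 + A * A' + A' ^ 2)) + (B - B') * (54 * (B + B')) := by ring
    rw [e]
    exact dvd_add (hA.mul_right _) (hB.mul_right _)
  exact dvd_iff_dvd_of_dvd_sub h

theorem eval_congr (m : ℤ) (f : MvPolynomial (Fin k) ℤ) {c d : Fin k → ℤ} (h : ∀ i, m ∣ c i - d i) :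
    m ∣ eval c f - eval d f := by
  induction f using MvPolynomial.induction_on with
  | C a => simp
  | add p q hp hq =>
    rw [map_add, map_add]
    have e : eval c p + eval c q - (eval d p + eval d q) = (eval c p - eval d p) + (eval c q - eval d q) := by ring
    rw [e]
    exact dvd_add hp hq
  | mul_X p i hp =>
    rw [map_mul, map_mul, eval_X, eval_X]
    have e : eval c p * c i - eval d p * d i = (eval c p - eval d p) * c i + (c i - d i) * eval d p := by ring
    rw [e]
    exact dvd_add (hp.mul_right _) ((h i).mul_right _)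

theorem term_per (E : Curves k r) (w : ℕ → (Fin r → ℤ) → ℝ) (p : ℕ) : PerV (term E w p) p := by
  intro c d h
  have hA : ∀ j, (p : ℤ) ∣ E.a c j - E.a d j := fun j => eval_congr _ _ h
  have hB : ∀ j, (p : ℤ) ∣ E.b c j - E.b d j := fun j => eval_congr _ _ h
  unfold term trace
  have e1 : (∃ j, (p : ℤ) ∣ 2 * (4 * E.a c j ^ 3 + 27 * E.b c j ^ 2)) ↔
      ∃ j, (p : ℤ) ∣ 2 * (4 * E.a d j ^ 3 + 27 * E.b d j ^ 2) :=
    exists_congr fun j => disc_congr p (hA j) (hB j)
  have e2 : (fun j => (p : ℤ) - points p (E.a c j) (E.b c j)) = fun j => (p : ℤ) - points p (E.a d j) (E.b d j) := by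
    funext j
    rw [points_congr p (hA j) (hB j)]
  simp only [e1, e2]

theorem term_le (E : Curves k r) {w : ℕ → (Fin r → ℤ) → ℝ} (hw : ∀ p a, |w p a| ≤ 1) (p : ℕ) (t : Fin k → ℤ) :
    |term E w p t| ≤ 1 := by
  unfold term
  split_ifs
  · simp
  · exact hw _ _

theorem av_eq (p : ℕ) (f : (Fin k → ℤ) → ℝ) : av p f = average p f := by
  unfold av average bx
  rw [Fintype.card_fin]

theorem variance_eq (E : Curves k r) (w : ℕ → (Fin r → ℤ) → ℝ) (x : ℕ) :
    variance E w x = ∑ p ∈ prs x, vr (term E w) p := by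
  refine sum_congr rfl fun p _ => ?_
  unfold vr
  rw [av_eq, av_eq]

theorem mean_eq (E : Curves k r) (w : ℕ → (Fin r → ℤ) → ℝ) (x : ℕ) :
    mean E w x = ∑ p ∈ prs x, av p (term E w p) :=
  sum_congr rfl fun p _ => (av_eq p _).symm

/-- The general central limit theorem. -/
theorem clt (k : ℕ) (δ : ℝ) (hδ : 0 < δ) : ∃ D : ℕ, ∃ V : ℝ, ∀ (r : ℕ) (E : Curves k r) (H : Fin k → ℕ) (x : ℕ),
    (∀ i, x ^ D ≤ H i) → ∀ w : ℕ → (Fin r → ℤ) → ℝ, (∀ p a, |w p a| ≤ 1) → V ≤ variance E w x →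
      ∀ u : ℝ, |proportion E w x H u - normal u| ≤ δ := by
  classical
  obtain ⟨ε, hε, hcore⟩ := clt_core (ι := Fin k) δ hδ
  obtain ⟨C0, V0, hV0, hc⟩ := hcore 0 1 le_rfl
  refine ⟨C0 + 1, V0 + k, ?_⟩
  intro r E H x hH w hw hV u
  rw [variance_eq] at hV
  have hk0 : (0 : ℝ) ≤ k := Nat.cast_nonneg _
  have hVx : ∑ p ∈ prs x, vr (term E w) p ≤ x := by
    have h1 : ∑ p ∈ prs x, vr (term E w) p ≤ ∑ p ∈ prs x, (1 : ℝ) :=
      sum_le_sum fun p hp => vr_le_one (term_le E hw) (mem_prs.1 hp).1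
    rw [sum_const, nsmul_eq_mul, mul_one] at h1
    have h2 : prs x ⊆ Icc 1 x := by
      intro p hp
      obtain ⟨h1, h2⟩ := mem_prs.1 hp
      exact mem_Icc.2 ⟨h1.one_lt.le, h2⟩
    have h3 := card_le_card h2
    rw [Nat.card_Icc] at h3
    have h4 : ((prs x).card : ℝ) ≤ x := by exact_mod_cast (by omega : (prs x).card ≤ x)
    linarith
  have hx1 : (1 : ℝ) ≤ x := by linarith
  have hxk : (k : ℝ) ≤ x := by linarith
  have hne : (Pool.Agent.L0h41.NG.bxx H).Nonempty := by
    refine ⟨fun _ => 0, ?_⟩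
    unfold Pool.Agent.L0h41.NG.bxx
    rw [Fintype.mem_piFinset]
    intro i
    rw [mem_Icc]
    omega
  have hη : (Fintype.card (Fin k) : ℝ) / (2 * ((x ^ (C0 + 1) : ℕ) : ℝ) + 1) * (x : ℝ) ^ C0 ≤ 4 := by
    rw [Fintype.card_fin, div_mul_eq_mul_div, div_le_iff₀ (by positivity)]
    push_cast
    have h1 : (0 : ℝ) < (x : ℝ) ^ C0 := by positivity
    have h2 : (k : ℝ) * (x : ℝ) ^ C0 ≤ x * (x : ℝ) ^ C0 := mul_le_mul_of_nonneg_right hxk h1.le
    have h3 : (x : ℝ) ^ (C0 + 1) = x * (x : ℝ) ^ C0 := by ring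
    have h4 : 0 ≤ (x : ℝ) * (x : ℝ) ^ C0 := by positivity
    rw [h3]
    linarith
  have h1 := hc (Fin k → ℤ) (Pool.Agent.L0h41.NG.bxx H) (Pool.Agent.L0h41.NG.bxx H) (fun c => c) (fun _ => 1)
    ((Fintype.card (Fin k) : ℝ) / (2 * ((x ^ (C0 + 1) : ℕ) : ℝ) + 1)) x (term E w) (Subset.refl _)
    (by
      have : (0 : ℝ) ≤ ((Pool.Agent.L0h41.NG.bxx H).card : ℝ) := Nat.cast_nonneg _
      linarith) hne (fun p _ _ => Nat.coprime_one_left p) (fun _ _ _ => rfl) (fun _ => zero_le_one) (fun _ => le_rfl)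
    (by
      have h2 : ∑ n ∈ Pool.Agent.L0h41.NG.bxx H,
          |(1 : ℝ) - ((Pool.Agent.L0h41.NG.bxx H : Finset (Fin k → ℤ)) : Set (Fin k → ℤ)).indicator (fun _ => (1 : ℝ)) n| = 0 := by
        refine sum_eq_zero fun n hn => ?_
        rw [Set.indicator_of_mem (mem_coe.2 hn), sub_self, abs_zero]
      rw [h2]
      positivity) (by positivity) (Pool.Agent.L0h41.NG.bxx_eqd H (x ^ (C0 + 1)) hH _) hη
    (fun p _ => term_per E w p) (term_le E hw) (by linarith) u
  unfold proportion normal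
  refine le_trans (le_of_eq ?_) h1
  have e : Box H = Pool.Agent.L0h41.NG.bxx H := rfl
  rw [e]
  congr 4
  congr 1
  ext t
  rw [mem_filter, mem_filter, mean_eq, variance_eq]
  rfl

/-! ### The variance in the thin families -/

/-- A function which takes the values `1` and `0`. -/
theorem var_two {α : Type} (S : Finset α) (f : α → ℝ) (n : ℝ) (hn : (S.card : ℝ) = n) {s t : α} (hs : s ∈ S) (ht : t ∈ S)
    (hfs : f s = 1) (hft : f t = 0) : 1 / (2 * n) ≤ (∑ a ∈ S, f a ^ 2) / n - ((∑ a ∈ S, f a) / n) ^ 2 := by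
  classical
  have hst : s ≠ t := by
    rintro rfl
    rw [hfs] at hft
    norm_num at hft
  have hn0 : 0 < n := by
    rw [← hn]
    exact_mod_cast card_pos.2 ⟨s, hs⟩
  obtain ⟨μ, hμ⟩ : ∃ μ, μ = (∑ a ∈ S, f a) / n := ⟨_, rfl⟩
  rw [← hμ]
  have h1 : ∑ a ∈ S, (f a - μ) ^ 2 = ∑ a ∈ S, f a ^ 2 - n * μ ^ 2 := by
    have h2 : ∀ a ∈ S, (f a - μ) ^ 2 = f a ^ 2 - 2 * μ * f a + μ ^ 2 := fun a _ => by ring
    rw [sum_congr rfl h2, sum_add_distrib, sum_sub_distrib, ← mul_sum, sum_const, nsmul_eq_mul, hn]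
    have h3 : ∑ a ∈ S, f a = μ * n := by
      rw [hμ]
      field_simp
    rw [h3]
    ring
  have h4 : 1 / 2 ≤ ∑ a ∈ S, (f a - μ) ^ 2 := by
    have h5 : ∑ a ∈ ({s, t} : Finset α), (f a - μ) ^ 2 ≤ ∑ a ∈ S, (f a - μ) ^ 2 := by
      refine sum_le_sum_of_subset_of_nonneg ?_ fun _ _ _ => sq_nonneg _
      intro a ha
      rw [mem_insert, mem_singleton] at ha
      rcases ha with rfl | rfl
      · exact hs
      · exact ht
    rw [sum_pair hst, hfs, hft] at h5
    nlinarith [sq_nonneg (2 * μ - 1)]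
  rw [h1] at h4
  rw [div_le_iff₀ (by positivity)]
  have e : ((∑ a ∈ S, f a ^ 2) / n - μ ^ 2) * (2 * n) = 2 * (∑ a ∈ S, f a ^ 2 - n * μ ^ 2) := by
    field_simp
  rw [e]
  linarith

/-- a bound beyond which no prime divides the numbers `6` and `B_j(0)` -/
theorem exists_bound (E : Curves 1 (r + 1)) : ∃ N0 : ℕ, 5 ≤ N0 ∧ ∀ j, (E.b 0 j).natAbs ≤ N0 := by
  refine ⟨5 + ∑ j, (E.b 0 j).natAbs, by omega, fun j => ?_⟩
  have := single_le_sum (f := fun j => (E.b 0 j).natAbs) (fun _ _ => Nat.zero_le _) (mem_univ j)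
  omega

theorem not_dvd_of {p : ℕ} {z : ℤ} (hz : z ≠ 0) (h : z.natAbs < p) : ¬ (p : ℤ) ∣ z := by
  intro hd
  have h1 := Int.natAbs_dvd_natAbs.2 hd
  rw [Int.natAbs_natCast] at h1
  have h2 := Nat.le_of_dvd (Int.natAbs_pos.2 hz) h1
  omega

/-- The variance at the primes congruent to `2` modulo `3`. -/
theorem var_low (E : Curves 1 (r + 1)) (hE : Special E) (N0 : ℕ) (h5 : 5 ≤ N0) (hN0 : ∀ j, (E.b 0 j).natAbs ≤ N0)
    (w : ℕ → (Fin (r + 1) → ℤ) → ℝ) (hw : ∀ p : ℕ, p.Prime → p % 3 = 2 → w p 0 = 1) (p : ℕ) (hp : p.Prime)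
    (h3 : p % 3 = 2) (hpN : N0 < p) :
    1 / (2 * (p : ℝ)) ≤ average p (fun t => term E w p t ^ 2) - average p (term E w p) ^ 2 := by
  classical
  obtain ⟨⟨b, hb, hEA, hEB⟩, hE0⟩ := hE
  have : Fact p.Prime := ⟨hp⟩
  have hpI := Nat.prime_iff_prime_int.1 hp
  have hb0 : E.b 0 0 = b := by
    unfold Curves.b
    rw [hEB, eval_C]
  have hbp : ¬ (p : ℤ) ∣ b := not_dvd_of hb (by
    have := hN0 0
    rw [hb0] at this
    omega)
  -- the parameter zero
  have hcard : ((Fintype.piFinset (fun _ : Fin 1 => range p)).card : ℝ) = p := by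
    rw [Fintype.card_piFinset]
    simp
  have hz : (fun i : Fin 1 => (((fun _ : Fin 1 => (0 : ℕ)) i : ℕ) : ℤ)) = 0 := by
    funext i
    simp
  have hp27 : ¬ (p : ℤ) ∣ 54 := by
    intro hd
    have e : (54 : ℤ) = 2 * 3 ^ 3 := by norm_num
    rw [e] at hd
    rcases hpI.dvd_or_dvd hd with h | h
    · have := Int.le_of_dvd (by norm_num) h
      omega
    · have := Int.le_of_dvd (by norm_num) (hpI.dvd_of_dvd_pow h)
      omega
  have hs : term E w p 0 = 1 := by
    unfold term
    rw [if_neg]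
    · have e : (fun j => trace p (E.a 0 j) (E.b 0 j)) = 0 := by
        funext j
        rw [(hE0 j).1]
        unfold trace points
        rw [cube_points p hp h3 (E.b 0 j), sub_self]
        rfl
      rw [e]
      exact hw p hp h3
    · rintro ⟨j, hj⟩
      rw [(hE0 j).1] at hj
      have e : 2 * (4 * (0 : ℤ) ^ 3 + 27 * E.b 0 j ^ 2) = 54 * E.b 0 j ^ 2 := by ring
      rw [e] at hj
      rcases hpI.dvd_or_dvd hj with h | h
      · exact hp27 h
      · exact not_dvd_of (hE0 j).2 (lt_of_le_of_lt (hN0 j) hpN) (hpI.dvd_of_dvd_pow h)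
  -- the singular fibre
  obtain ⟨z, hz3⟩ := (cube_bij (p := p) h3).2 (-(27 * (b : ZMod p) ^ 2) / 4)
  have h4 : (4 : ZMod p) ≠ 0 := by
    intro h
    have h1 : ((4 : ℕ) : ZMod p) = 0 := by exact_mod_cast h
    rw [ZMod.natCast_eq_zero_iff] at h1
    have := Nat.le_of_dvd (by norm_num) h1
    omega
  have hsing : (p : ℤ) ∣ 2 * (4 * ((z.val : ℕ) : ℤ) ^ 3 + 27 * b ^ 2) := by
    rw [← ZMod.intCast_zmod_eq_zero_iff_dvd]
    push_cast
    rw [ZMod.natCast_val, ZMod.cast_id]
    have h1 : 4 * z ^ 3 = -(27 * (b : ZMod p) ^ 2) := by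
      have : z ^ 3 = -(27 * (b : ZMod p) ^ 2) / 4 := hz3
      rw [this]
      field_simp
    have e : (2 : ZMod p) * (4 * z ^ 3 + 27 * (b : ZMod p) ^ 2) = 0 := by
      rw [h1]
      ring
    exact e
  have ht : term E w p (fun i => (((fun _ : Fin 1 => z.val) i : ℕ) : ℤ)) = 0 := by
    unfold term
    rw [if_pos]
    refine ⟨0, ?_⟩
    unfold Curves.a Curves.b
    rw [hEA, hEB, eval_X, eval_C]
    exact hsing
  have h6 := var_two (Fintype.piFinset (fun _ : Fin 1 => range p)) (fun t => term E w p (fun i => (t i : ℤ))) p hcard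
    (s := fun _ => 0) (t := fun _ => z.val)
    (by
      rw [Fintype.mem_piFinset]
      intro _
      exact mem_range.2 hp.pos)
    (by
      rw [Fintype.mem_piFinset]
      intro _
      exact mem_range.2 (ZMod.val_lt z))
    (by
      change term E w p (fun i : Fin 1 => (((fun _ : Fin 1 => (0 : ℕ)) i : ℕ) : ℤ)) = 1
      rw [hz]
      exact hs) ht
  unfold average
  rw [pow_one]
  exact h6

/-- The variance tends to infinity, uniformly in the weights. -/
theorem variance_large (E : Curves 1 (r + 1)) (hE : Special E) (V : ℝ) : ∃ x₀ : ℕ, ∀ x : ℕ, x₀ ≤ x →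
    ∀ w : ℕ → (Fin (r + 1) → ℤ) → ℝ, (∀ p a, |w p a| ≤ 1) → (∀ p : ℕ, p.Prime → p % 3 = 2 → w p 0 = 1) →
      V ≤ variance E w x := by
  classical
  obtain ⟨N0, h5, hN0⟩ := exists_bound E
  obtain ⟨K, hK⟩ := recip_div (N0 + 10 * V)
  refine ⟨3 * K + 2, ?_⟩
  intro x hx w hw1 hw
  obtain ⟨M, hM⟩ : ∃ M, M = (Ioc 0 K).filter (fun m : ℕ => (3 * m + 2).Prime) := ⟨_, rfl⟩
  rw [← hM] at hK
  have h1 : (M.filter (fun m => N0 < m)).image (fun m => 3 * m + 2) ⊆ primes x := by
    intro p hp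
    rw [mem_image] at hp
    obtain ⟨m, hm, rfl⟩ := hp
    rw [hM, mem_filter, mem_filter, mem_Ioc] at hm
    unfold primes
    rw [mem_filter, mem_range]
    exact ⟨by omega, hm.1.2⟩
  have h2 : ∑ p ∈ (M.filter (fun m => N0 < m)).image (fun m => 3 * m + 2),
      (average p (fun t => term E w p t ^ 2) - average p (term E w p) ^ 2) ≤ variance E w x := by
    unfold variance
    refine sum_le_sum_of_subset_of_nonneg h1 fun p hp _ => ?_
    have hpp : p.Prime := by
      unfold primes at hp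
      exact (mem_filter.1 hp).2
    have h3 := vr_nonneg (term E w) hpp
    unfold vr at h3
    rwa [av_eq, av_eq] at h3
  refine le_trans ?_ h2
  rw [sum_image (fun a _ b _ h => by simpa using h)]
  have h3 : ∑ m ∈ M.filter (fun m => N0 < m), (1 / 10 : ℝ) * (1 / (m : ℝ)) ≤
      ∑ m ∈ M.filter (fun m => N0 < m), (average (3 * m + 2) (fun t => term E w (3 * m + 2) t ^ 2) -
          average (3 * m + 2) (term E w (3 * m + 2)) ^ 2) := by
    refine sum_le_sum fun m hm => ?_
    rw [hM, mem_filter, mem_filter, mem_Ioc] at hm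
    refine le_trans ?_ (var_low E hE N0 h5 hN0 w hw (3 * m + 2) hm.1.2 (by omega) (by omega))
    have hm1 : (1 : ℝ) ≤ m := by exact_mod_cast hm.1.1.1
    have hm0 : (0 : ℝ) < m := by linarith
    push_cast
    rw [div_mul_div_comm, one_mul, div_le_div_iff₀ (by positivity) (by positivity)]
    linarith
  rw [← mul_sum] at h3
  have h4 : ∑ m ∈ M, (1 : ℝ) / m ≤ N0 + ∑ m ∈ M.filter (fun m => N0 < m), (1 : ℝ) / m := by
    rw [← sum_filter_add_sum_filter_not M (fun m => N0 < m)]
    have h5 : ∑ m ∈ M.filter (fun m => ¬ N0 < m), (1 : ℝ) / m ≤ N0 := by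
      have h6 : ∑ m ∈ M.filter (fun m => ¬ N0 < m), (1 : ℝ) / m ≤ ∑ m ∈ M.filter (fun m => ¬ N0 < m), (1 : ℝ) := by
        refine sum_le_sum fun m hm => ?_
        rw [hM, mem_filter, mem_filter, mem_Ioc] at hm
        have hm1 : (1 : ℝ) ≤ m := by exact_mod_cast hm.1.1.1
        rw [div_le_one (by linarith)]
        exact hm1
      have h7 : (M.filter (fun m => ¬ N0 < m)).card ≤ N0 := by
        have h8 : M.filter (fun m => ¬ N0 < m) ⊆ Icc 1 N0 := by
          intro m hm
          rw [hM, mem_filter, mem_filter, mem_Ioc] at hm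
          rw [mem_Icc]
          omega
        have := card_le_card h8
        rwa [Nat.card_Icc, Nat.add_sub_cancel] at this
      rw [sum_const, nsmul_eq_mul, mul_one] at h6
      have h8 : ((M.filter (fun m => ¬ N0 < m)).card : ℝ) ≤ N0 := by exact_mod_cast h7
      linarith
    linarith
  linarith

/-- **The Gaussian law for the Lang–Trotter counts in polynomial families.** (1) For every number `k` of parameters and
`δ > 0` there are `D` and `V` such that for all `r`, all polynomial families `E_1(t), …, E_r(t)`, all boxes with sides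
at least `x ^ D` and all weights with values in `[-1, 1]` with `V ≤ variance`, the distribution function of the
normalized sum is the one of the normal distribution up to `δ`. (2) In the special families with one parameter this is
so for all large `x` and all weights with `w_p(0, …, 0) = 1` for all `p ≡ 2` modulo `3`. (3) There the variance tends to
infinity, uniformly in these weights. -/
theorem result :
    (∀ (k : ℕ) (δ : ℝ), 0 < δ → ∃ D : ℕ, ∃ V : ℝ, ∀ (r : ℕ) (E : Curves k r) (H : Fin k → ℕ) (x : ℕ),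
      (∀ i, x ^ D ≤ H i) → ∀ w : ℕ → (Fin r → ℤ) → ℝ, (∀ p a, |w p a| ≤ 1) → V ≤ variance E w x →
        ∀ u : ℝ, |proportion E w x H u - normal u| ≤ δ) ∧
    (∀ δ : ℝ, 0 < δ → ∃ D : ℕ, ∀ (r : ℕ) (E : Curves 1 (r + 1)), Special E → ∃ x₀ : ℕ, ∀ x : ℕ, x₀ ≤ x →
      ∀ H : Fin 1 → ℕ, x ^ D ≤ H 0 → ∀ w : ℕ → (Fin (r + 1) → ℤ) → ℝ, (∀ p a, |w p a| ≤ 1) →
        (∀ p : ℕ, p.Prime → p % 3 = 2 → w p 0 = 1) → ∀ u : ℝ, |proportion E w x H u - normal u| ≤ δ) ∧
    (∀ (r : ℕ) (E : Curves 1 (r + 1)), Special E → ∀ V : ℝ, ∃ x₀ : ℕ, ∀ x : ℕ, x₀ ≤ x →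
      ∀ w : ℕ → (Fin (r + 1) → ℤ) → ℝ, (∀ p a, |w p a| ≤ 1) → (∀ p : ℕ, p.Prime → p % 3 = 2 → w p 0 = 1) →
        V ≤ variance E w x) := by
  refine ⟨clt, ?_, fun r E hE V => variance_large E hE V⟩
  intro δ hδ
  obtain ⟨D, V, h⟩ := clt 1 δ hδ
  refine ⟨D, ?_⟩
  intro r E hE
  obtain ⟨x₀, hx₀⟩ := variance_large E hE V
  refine ⟨x₀, ?_⟩
  intro x hx H hH w hw hw0 u
  exact h (r + 1) E H x (fun i => by rw [Subsingleton.elim i 0]; exact hH) w hw (hx₀ x hx w hw hw0) u

end Pool.Agent.Results.MP_f1937f_nt.PolynomialFamilies
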